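import Pool.Agent.H940.S.Diag
import Pool.Agent.H940.R.Sec

set_option autoImplicit false
set_option linter.unusedSectionVars false
set_option linter.unusedVariables false

/-! # Integer weights from a linear field which kills a form -/

namespace Pool.Agent.H940.M

open MvPolynomial Pool.Agent.H940.R Pool.Agent.H940.S
open Pool.Agent.H940.R.LK

variable {K : Type} [Field K] [CharZero K] {m : ℕ}

theorem cc_lf (c : Fin m → K) : constantCoeff (lf c) = 0 := by
  rw [lf_apply, map_sum]
  exact Finset.sum_eq_zero fun i _ => by rw [map_mul, constantCoeff_X, mul_zero]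

theorem lf_hom (c : Fin m → K) : (lf c).IsHomogeneous 1 := by
  rw [lf_apply]
  exact IsHomogeneous.sum _ _ _ fun j _ => by
    have := (isHomogeneous_C (Fin m) (c j)).mul (isHomogeneous_X K j)
    rwa [zero_add] at this

/-- **The averaged linear field.** -/
theorem avg_lin (T : Module.End K (Fin m → K)) (f : MvPolynomial (Fin m) K) (d : ℕ)
    (hf : f.IsHomogeneous d) (hT : Dl T f = 0) : ∃ (P : Polynomial K) (R : Finset ℚ),
      Dl (Polynomial.aeval T P) f = 0 ∧
      (∀ c, T c = c → Polynomial.aeval T P c = c) ∧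
      (LinearMap.trace K _ T = 0 → LinearMap.trace K _ (Polynomial.aeval T P) = 0) ∧
      Polynomial.aeval (Polynomial.aeval T P)
        (∏ r ∈ R, (Polynomial.X - Polynomial.C (r : K))) = 0 := by
  classical
  have hint : Algebra.IsIntegral K (AlgebraicClosure K) := by
    have := AlgebraicClosure.isAlgebraic K
    constructor
    intro x
    exact (this.isAlgebraic x).isIntegral
  obtain ⟨av⟩ := exists_av K
  set D : Fin m → MvPolynomial (Fin m) K := fun t => lf (T (Pi.single t 1)) with hD
  have hD0 : ∀ t, constantCoeff (D t) = 0 := fun t => cc_lf _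
  have hvf : ∀ F, vf D F = Dl T F := fun F => (Dl_eq T F).symm
  obtain ⟨δ, hδ, hδm⟩ := exists_delta (k := d + 2) hD0
  obtain ⟨P, hP1, hP2⟩ := av.exists_good δ T
  obtain ⟨R, hR⟩ := hP2.exists_set
  refine ⟨P, R, ?_, fun c hc => ?_, fun htr => ?_, hR⟩
  swap
  · have := hP2.apply 1 c (by rw [hc, Rat.cast_one, one_smul])
    rwa [Rat.cast_one, one_smul] at this
  swap
  · have := hP2.trace 0 (by rw [htr, Rat.cast_zero])
    rwa [Rat.cast_zero] at this
  set A := Polynomial.aeval δ P with hA
  set T1 := Polynomial.aeval T P with hT1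
  have hAm : ∀ x y, A (x * y) = A x * y + x * A y := hP1.leib hδm
  have hA1 : A 1 = 0 := by
    have h1 := hAm 1 1
    rw [mul_one, mul_one, one_mul] at h1
    exact left_eq_add.1 h1
  have hlin : ∀ c : Fin m → K, A (qa (d + 2) (lf c)) = qa (d + 2) (lf (T1 c)) := by
    intro c
    have h1 := aeval_comm ((qa (d + 2)).toLinearMap.comp lf) T δ (fun x => by
      rw [LinearMap.comp_apply, LinearMap.comp_apply, AlgHom.toLinearMap_apply,
        AlgHom.toLinearMap_apply, hδ, hvf, Dl_lf]) P c
    exact h1.symm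
  have hall : ∀ F : MvPolynomial (Fin m) K, A (qa (d + 2) F) = qa (d + 2) (Dl T1 F) := by
    intro F
    induction F using MvPolynomial.induction_on with
    | C a =>
      rw [derivation_C, map_zero, ← mul_one (C a), C_mul', map_smul, map_smul, map_one, hA1,
        smul_zero]
    | add p q hp hq => rw [map_add, map_add, map_add, map_add, hp, hq]
    | mul_X p i hp =>
      rw [map_mul, hAm, hp, Derivation.leibniz, map_add, smul_eq_mul, smul_eq_mul, map_mul,
        map_mul, ← lf_single, hlin, Dl_lf, lf_single]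
      ring
  have h0 : A (qa (d + 2) f) = 0 := by
    have := hP1.apply 0 (qa (d + 2) f) (by
      rw [hδ, hvf, hT, map_zero, Rat.cast_zero, zero_smul])
    rwa [Rat.cast_zero, zero_smul] at this
  rw [hall] at h0
  have h1 : Dl T1 f - 0 ∈ wI K 1 (d + 2) := by
    rw [← qa_eq, map_zero]
    exact h0
  rw [sub_zero] at h1
  have h2 : (Dl T1 f).IsHomogeneous (1 + (d - 1)) := by
    rw [Dl_eq]
    exact IsHomogeneous.sum _ _ _ fun i _ => (lf_hom _).mul hf.pderiv
  ext α
  rw [coeff_zero]
  by_cases hα : Finsupp.weight (1 : Fin m → ℕ) α = 1 + (d - 1)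
  · exact h1 α (by
      rw [hα]
      omega)
  · by_contra hne
    exact hα (h2 hne)

/-- **Integer weights.** -/
theorem fix_coords (T : Module.End K (Fin m → K)) (f : MvPolynomial (Fin m) K) (d : ℕ)
    (hf : f.IsHomogeneous d) (hT : Dl T f = 0) (htr : LinearMap.trace K _ T = 0) :
    ∃ (Y Z : Matrix (Fin m) (Fin m) K) (ω : Fin m → ℤ) (q : ℕ), Y * Z = 1 ∧ Z * Y = 1 ∧ 0 < q ∧
      ∑ i, ω i = 0 ∧ (∀ α ∈ (sb Z f).support, ∑ i, (α i : ℤ) * ω i = 0) ∧
      ∀ x : Fin m → K, (∀ c : Fin m → K, ∑ i, T c i * x i = ∑ i, c i * x i) →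
        ∀ i, Y.mulVec x i ≠ 0 → ω i = q := by
  classical
  obtain ⟨P, R, h1, h2, h3, h4⟩ := avg_lin T f d hf hT
  set T1 := Polynomial.aeval T P with hT1
  have htop : ⨆ c, T1.eigenspace c = ⊤ := by
    refine top_of_prod T1 (R.image fun r : ℚ => (r : K)) ?_
    rw [Finset.prod_image]
    · exact h4
    · intro a _ b _ hab
      exact Rat.cast_injective (α := K) hab
  obtain ⟨Y, Z, lam, hYZ, hZY, hSY, htr2⟩ := eig_basis T1 htop
  have hY0 : ∀ i, Y i ≠ 0 := by
    intro i h
    have h5 := congrFun (congrFun hYZ i) i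
    rw [Matrix.mul_apply, Matrix.one_apply_eq, Finset.sum_eq_zero] at h5
    · exact zero_ne_one h5
    · intro j _
      rw [h, Pi.zero_apply, zero_mul]
  have hrat : ∀ i, ∃ r : ℚ, lam i = (r : K) := by
    intro i
    have h5 := LinearMap.congr_fun h4 (Y i)
    rw [Module.End.aeval_apply_of_mem_apply_eq_smul (hSY i), LinearMap.zero_apply,
      Polynomial.eval_prod] at h5
    have h6 := (smul_eq_zero.1 h5).resolve_right (hY0 i)
    obtain ⟨r, -, hr⟩ := Finset.prod_eq_zero_iff.1 h6
    rw [Polynomial.eval_sub, Polynomial.eval_X, Polynomial.eval_C, sub_eq_zero] at hr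
    exact ⟨r, hr⟩
  choose ρ hρ using hrat
  -- the fixed points
  have hfix : ∀ x : Fin m → K, (∀ c : Fin m → K, ∑ i, T c i * x i = ∑ i, c i * x i) →
      ∀ c : Fin m → K, ∑ i, T1 c i * x i = ∑ i, c i * x i := by
    intro x hx
    by_cases hx0 : x = 0
    · intro c
      rw [hx0]
      simp
    let fx : (Fin m → K) →ₗ[K] K :=
      { toFun := fun c => ∑ i, c i * x i
        map_add' := fun c c' => by
          rw [← Finset.sum_add_distrib]
          exact Finset.sum_congr rfl fun i _ => by rw [Pi.add_apply, add_mul]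
        map_smul' := fun a c => by
          rw [RingHom.id_apply, smul_eq_mul, Finset.mul_sum]
          exact Finset.sum_congr rfl fun i _ => by rw [Pi.smul_apply, smul_eq_mul, mul_assoc] }
    have h5 : ∀ c, fx (T1 c) = P.eval 1 • fx c := by
      intro c
      have h6 := aeval_comm fx T (1 : Module.End K K) (fun y => hx y) P c
      have h7 := Module.End.aeval_apply_of_mem_apply_eq_smul (f := (1 : Module.End K K))
        (p := P) (μ := 1) (x := fx c) (by rw [one_smul, Module.End.one_apply])
      rw [h7] at h6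
      exact h6
    -- an eigenvector
    obtain ⟨c, hc0, hc⟩ : ∃ c : Fin m → K, c ≠ 0 ∧ T c = c := by
      set M := LinearMap.toMatrix' T with hM
      have h6 : (M.transpose - 1).mulVec x = 0 := by
        rw [Matrix.sub_mulVec, Matrix.one_mulVec, sub_eq_zero]
        funext j
        have h7 := hx (Pi.single j 1)
        have h8 : ∑ i, (Pi.single j 1 : Fin m → K) i * x i = x j := by
          rw [Finset.sum_eq_single j]
          · rw [Pi.single_eq_same, one_mul]
          · intro i _ hi
            rw [Pi.single_eq_of_ne hi, zero_mul]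
          · intro h
            exact absurd (Finset.mem_univ j) h
        rw [h8] at h7
        rw [← h7]
        unfold Matrix.mulVec dotProduct
        refine Finset.sum_congr rfl fun i _ => ?_
        change M i j * x i = _
        rw [hM, LinearMap.toMatrix'_apply]
      have h7 : (M.transpose - 1).det = 0 := Matrix.exists_mulVec_eq_zero_iff.1 ⟨x, hx0, h6⟩
      have h8 : (M - 1).det = 0 := by
        rw [← Matrix.det_transpose, Matrix.transpose_sub, Matrix.transpose_one]
        exact h7
      obtain ⟨c, hc0, hc⟩ := Matrix.exists_mulVec_eq_zero_iff.2 h8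
      refine ⟨c, hc0, ?_⟩
      rw [Matrix.sub_mulVec, Matrix.one_mulVec, sub_eq_zero] at hc
      rw [← Matrix.toLin'_apply, hM, Matrix.toLin'_toMatrix'] at hc
      exact hc
    have h6 : P.eval 1 = 1 := by
      have h7 := h2 c hc
      have h8 := Module.End.aeval_apply_of_mem_apply_eq_smul (f := T) (p := P) (μ := 1) (x := c)
        (by rw [one_smul, hc])
      rw [← hT1, h7] at h8
      have h9 : (P.eval 1 - 1) • c = 0 := by
        rw [sub_smul, one_smul, sub_eq_zero]
        exact h8.symm
      exact sub_eq_zero.1 ((smul_eq_zero.1 h9).resolve_right hc0)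
    intro c
    have h7 := h5 c
    rw [h6, one_smul] at h7
    exact h7
  -- the weights
  set q : ℕ := ∏ i, (ρ i).den with hq
  have hq0 : 0 < q := Finset.prod_pos fun i _ => (ρ i).den_pos
  have hw : ∀ i, ∃ w : ℤ, (w : ℚ) = q * ρ i := by
    intro i
    obtain ⟨c, hc⟩ := Finset.dvd_prod_of_mem (fun i => (ρ i).den) (Finset.mem_univ i)
    refine ⟨c * (ρ i).num, ?_⟩
    rw [hq, hc]
    push_cast
    rw [← Rat.den_mul_eq_num]
    ring
  choose w hw using hw
  refine ⟨Y, Z, w, q, hYZ, hZY, hq0, ?_, fun α hα => ?_, fun x hx i hi => ?_⟩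
  · have h5 : ∑ i, ρ i = 0 := by
      have h6 : ((∑ i, ρ i : ℚ) : K) = 0 := by
        push_cast
        rw [← h3 htr, ← htr2]
        exact Finset.sum_congr rfl fun i _ => (hρ i).symm
      exact_mod_cast h6
    have h6 : ((∑ i, w i : ℤ) : ℚ) = q * ∑ i, ρ i := by
      push_cast
      rw [Finset.mul_sum]
      exact Finset.sum_congr rfl fun i _ => hw i
    rw [h5, mul_zero] at h6
    exact_mod_cast h6
  · set g := sb Z f with hg
    have hfg : f = sb Y g := by
      rw [hg, sb_sb, hZY, sb_one]
    have h5 := h1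
    rw [hfg, Dl_sb hSY] at h5
    have h6 := congrArg (sb Z) h5
    rw [sb_sb, hYZ, sb_one, map_zero] at h6
    have h7 := coeff_El lam g α
    rw [h6, coeff_zero] at h7
    have h8 := (mul_eq_zero.1 h7.symm).resolve_right (mem_support_iff.1 hα)
    have h9 : ((∑ i, (α i : ℚ) * ρ i : ℚ) : K) = 0 := by
      push_cast
      rw [← h8]
      exact Finset.sum_congr rfl fun i _ => by rw [hρ]
    have h10 : ∑ i, (α i : ℚ) * ρ i = 0 := by exact_mod_cast h9
    have h11 : ((∑ i, (α i : ℤ) * w i : ℤ) : ℚ) = 0 := by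
      push_cast
      have h12 : ∑ i, (α i : ℚ) * (w i : ℚ) = q * ∑ i, (α i : ℚ) * ρ i := by
        rw [Finset.mul_sum]
        exact Finset.sum_congr rfl fun i _ => by rw [hw]; ring
      rw [h12, h10, mul_zero]
    exact_mod_cast h11
  · have h5 := hfix x hx (Y i)
    rw [hSY i] at h5
    have h6 : ∑ j, (lam i • Y i) j * x j = lam i * Y.mulVec x i := by
      unfold Matrix.mulVec dotProduct
      rw [Finset.mul_sum]
      exact Finset.sum_congr rfl fun j _ => by rw [Pi.smul_apply, smul_eq_mul, mul_assoc]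
    rw [h6] at h5
    have h7 : (lam i - 1) * Y.mulVec x i = 0 := by
      rw [sub_mul, one_mul, h5, sub_eq_zero]
      rfl
    have h8 := sub_eq_zero.1 ((mul_eq_zero.1 h7).resolve_right hi)
    rw [hρ] at h8
    have h9 : ρ i = 1 := by exact_mod_cast h8
    have h10 := hw i
    rw [h9, mul_one] at h10
    exact_mod_cast h10

end Pool.Agent.H940.M
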