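import Pool.Agent.H940.M.Loc
import Pool.Agent.H940.R.Final

set_option autoImplicit false
set_option linter.unusedSectionVars false
set_option linter.unusedVariables false

/-! # The multiplicities of the roots, for forms -/

namespace Pool.Agent.H940.M

open MvPolynomial
open Pool.Agent.H628R4.TP (IsBFunction weylS)
open Pool.Agent.H940.Z (euler_w dv_koszul WHI)
open Pool.Agent.H940.G (Sg pt LH pt_ne pt_same pos_of_sg lty germAt)
open Pool.Agent.H940.LT (eval_homog euler_hom LTy dv exists_hyp)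
open Pool.Agent.H940.R Pool.Agent.H940.S

variable {n : ℕ} {f : MvPolynomial (Fin (n + 1)) ℂ} {d : ℕ} (hd : 2 ≤ d) (hf : f.IsHomogeneous d)
  (hf0 : f ≠ 0)
include hd hf hf0

theorem cc_form : constantCoeff f = 0 := by
  have h2 := eval_homog f d hf 0 0
  rw [zero_pow (by omega), zero_mul, zero_smul, eval_zero] at h2
  exact h2

theorem cc_pd_form (i : Fin (n + 1)) : constantCoeff (pderiv i f) = 0 := by
  have h2 := eval_homog (pderiv i f) (d - 1) hf.pderiv 0 0
  rw [zero_pow (by omega), zero_mul, zero_smul, eval_zero] at h2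
  exact h2

/-- the root `-1` -/
theorem root_one (b : Polynomial ℂ) (hb : IsBFunction f b) :
    ∃ b' : Polynomial ℂ, b = (Polynomial.X + 1) * b' := by
  classical
  obtain ⟨P, hP⟩ := hb
  obtain ⟨b', h1, -⟩ := exists_red f hf0 (cc_form hd hf hf0) 1 (by rw [map_one]; exact one_ne_zero)
    b P (fun s => by rw [one_mul]; exact hP s)
  exact ⟨b', h1⟩

/-- **The root of a singular point.** -/
theorem wgt_root {i : Fin (n + 1)} {q : Fin n → ℂ} (hs : ∀ j, eval (ptq i q) (pderiv j f) = 0)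
    {g : MvPolynomial (Fin n) ℂ} {w : Fin n → ℕ} {N : ℕ} {η : Fin n → MvPowerSeries (Fin n) ℂ}
    (H : WHK (germ i q f) g w N η) (b' : Polynomial ℂ)
    (hb : IsBFunction f ((Polynomial.X + 1) * b')) :
    b'.eval (-((∑ t, w t : ℕ) : ℂ) / N) = 0 := by
  classical
  have hn : 0 < n := pos_of_sg hd hf hf0 (x := ptq i q) (by
    intro h
    have := congrFun h i
    rw [ptq_same] at this
    exact one_ne_zero this) hs
  have h0 : constantCoeff (germ i q f) = 0 := by
    have h1 := congrArg (eval (ptq i q)) (euler_hom f d hf)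
    rw [map_sum, map_mul, eval_C] at h1
    rw [Finset.sum_eq_zero fun j _ => by rw [map_mul, hs, mul_zero]] at h1
    rw [cc_germ]
    have hd0 : (d : ℂ) ≠ 0 := by
      have : d ≠ 0 := by omega
      exact_mod_cast this
    exact (mul_eq_zero.1 h1.symm).resolve_left hd0
  have h1 : ∀ t, constantCoeff (pderiv t (germ i q f)) = 0 := by
    intro t
    rw [pd_germ, cc_germ, hs]
  have hW : WHI g w N := whk_whi H hn h0 h1
  have hG := whk_map (RingHom.id ℂ) H
  rw [map_id, map_id] at hG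
  have hne : germAt i q f ≠ 0 := by
    intro h
    apply hf0
    refine Pool.Agent.H940.G.eq_of_eval i _ _ fun x hx => ?_
    rw [Pool.Agent.H940.G.eval_germAt i q f d hf x hx, h, map_zero, map_zero, mul_zero]
  obtain ⟨H', P, hH', hP⟩ := fe_of_localBI g _ (localBI_wgt f d hf i q hne (hW.ne hn) hG _ hb)
  obtain ⟨b2, hb2, P', R, hR⟩ := exists_red g (hW.ne hn) (hW.g0 hn) H' hH' _ P hP
  have hX : (Polynomial.X + 1 : Polynomial ℂ) ≠ 0 := by
    have := Polynomial.X_add_C_ne_zero (1 : ℂ)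
    rwa [map_one] at this
  have hbb : b' = b2 := mul_left_cancel₀ hX hb2
  subst hbb
  have hNpos : 0 < N := lt_of_le_of_lt (Nat.zero_le _) (hW.lt ⟨0, hn⟩)
  have h2 : dv (fun t => C (w t : ℂ) * X t) =
      (C ((∑ t, w t : ℕ) : ℂ) : MvPolynomial (Fin n) ℂ) := by
    unfold dv
    push_cast
    rw [map_sum]
    refine Finset.sum_congr rfl fun t _ => ?_
    rw [pderiv_C_mul, pderiv_X_self, mul_one]
  have h3 := root_red (hW.ne hn) (hW.g0 hn) hW.cc hW.reg.lty
    (fun θ hθ => dv_koszul g hW.cc hW.reg.kos θ hθ) (fun t => C (w t : ℂ) * X t) (N : ℂ)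
    (by exact_mod_cast hNpos.ne') (euler_w w g N hW.hom) (fun t => by
      rw [map_mul, constantCoeff_X, mul_zero]) H' hH' b' P' R hR
  rw [h2, constantCoeff_C] at h3
  exact h3

theorem hyp_d0 : (d : ℂ) ≠ 0 := by
  have : d ≠ 0 := by omega
  exact_mod_cast this

theorem dv_X : constantCoeff (dv fun i : Fin (n + 1) => (X i : MvPolynomial (Fin (n + 1)) ℂ)) =
    ((n + 1 : ℕ) : ℂ) := by
  unfold dv
  rw [map_sum]
  simp only [pderiv_X_self, map_one]
  rw [Finset.sum_const, Finset.card_univ, Fintype.card_fin, nsmul_eq_mul, mul_one]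

/-- **The root of the vertex, or a field.** -/
theorem vertex_root (H : LH f) (b' : Polynomial ℂ)
    (hb : IsBFunction f ((Polynomial.X + 1) * b')) :
    b'.eval (-((n + 1 : ℕ) : ℂ) / d) = 0 ∨
    ∃ η : Fin (n + 1) → MvPolynomial (Fin (n + 1)) ℂ, ∑ i, η i * pderiv i f = 0 ∧
      constantCoeff (dv η) ≠ 0 := by
  classical
  rw [or_iff_not_imp_right]
  intro hno
  push Not at hno
  obtain ⟨P, hP⟩ := hb
  have h1 : constantCoeff (1 : MvPolynomial (Fin (n + 1)) ℂ) ≠ 0 := by
    rw [map_one]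
    exact one_ne_zero
  obtain ⟨b2, hb2, P', R, hR⟩ := exists_red f hf0 (cc_form hd hf hf0) 1 h1 _ P
    (fun s => by rw [one_mul]; exact hP s)
  have hX : (Polynomial.X + 1 : Polynomial ℂ) ≠ 0 := by
    have := Polynomial.X_add_C_ne_zero (1 : ℂ)
    rwa [map_one] at this
  have hbb : b' = b2 := mul_left_cancel₀ hX hb2
  subst hbb
  have h3 := root_red hf0 (cc_form hd hf hf0) (cc_pd_form hd hf hf0) (lty hd hf hf0 H)
    hno (fun i => X i) d (hyp_d0 hd hf hf0) (euler_hom f d hf)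
    (fun i => constantCoeff_X _ i) 1 h1 b' P' R hR
  rw [dv_X hd hf hf0] at h3
  exact h3

/-- **The double root of the vertex, or a linear field which fixes the singular points.** -/
theorem dbl_or_fix (H : LH f) {r : ℕ} (hr : 0 < r) (s : Fin r → Fin (n + 1) × (Fin n → ℂ))
    (hs : ∀ j, Sg f (pt (s j)))
    (hw : ∀ j, ∃ (g : MvPolynomial (Fin n) ℂ) (w : Fin n → ℕ) (N : ℕ)
      (η : Fin n → MvPowerSeries (Fin n) ℂ), WHK (germ (s j).1 (s j).2 f) g w N η ∧
        d * ∑ t, w t = (n + 1) * N)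
    (b' : Polynomial ℂ) (hb : IsBFunction f ((Polynomial.X + 1) * b')) :
    (b'.eval (-((n + 1 : ℕ) : ℂ) / d) = 0 ∧
      (Polynomial.derivative b').eval (-((n + 1 : ℕ) : ℂ) / d) = 0) ∨
    ∃ θ : Fin (n + 1) → MvPolynomial (Fin (n + 1)) ℂ, (∀ l, (θ l).IsHomogeneous 1) ∧
      ∑ l, θ l * pderiv l f = 0 ∧ ∀ j l, eval (pt (s j)) (θ l) = pt (s j) l := by
  classical
  have hd0 := hyp_d0 hd hf hf0
  have hn : 0 < n := pos_of_sg hd hf hf0 (pt_ne (s ⟨0, hr⟩)) (hs ⟨0, hr⟩)
  -- the relations at the singular points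
  have hrat : ∀ j : Fin r, ∀ (m : ℕ) (θ : Fin (n + 1) → MvPolynomial (Fin (n + 1)) ℂ),
      (∀ l, (θ l).IsHomogeneous m) → ∑ l, θ l * pderiv l f = 0 → ∃ a : ℂ,
        (∀ l, eval (pt (s j)) (θ l) = a * pt (s j) l) ∧
        eval (pt (s j)) (dv θ) = ((m : ℂ) - 1) * a := by
    intro j m θ hθ hk
    obtain ⟨g, w, N, η, hH, hN⟩ := hw j
    have h0 : constantCoeff (germ (s j).1 (s j).2 f) = 0 := by
      rw [cc_germ]
      have h1 := congrArg (eval (pt (s j))) (euler_hom f d hf)
      rw [map_sum, map_mul, eval_C] at h1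
      rw [Finset.sum_eq_zero fun l _ => by rw [map_mul, hs, mul_zero]] at h1
      exact (mul_eq_zero.1 h1.symm).resolve_left hd0
    have h1 : ∀ t, constantCoeff (pderiv t (germ (s j).1 (s j).2 f)) = 0 := by
      intro t
      rw [pd_germ, cc_germ]
      exact hs j _
    have hW : WHI g w N := whk_whi hH hn h0 h1
    have hNpos : 0 < N := lt_of_le_of_lt (Nat.zero_le _) (hW.lt ⟨0, hn⟩)
    have hN0 : (N : ℂ) ≠ 0 := by exact_mod_cast hNpos.ne'
    obtain ⟨h2, h3⟩ := kill_germ hf hH hn (hs j) (by omega) θ hθ hk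
    refine ⟨eval (ptq (s j).1 (s j).2) (θ (s j).1), h2, ?_⟩
    change eval (ptq (s j).1 (s j).2) (∑ l, pderiv l (θ l)) = _
    rw [h3]
    congr 1
    have h4 : (d : ℂ) * ((∑ t, w t : ℕ) : ℂ) = ((n : ℂ) + 1) * N := by exact_mod_cast hN
    field_simp
    linear_combination (-1 : ℂ) * h4
  -- a hyperplane
  obtain ⟨l, -, hl, -⟩ := exists_hyp f hf0 (Finset.univ.image fun j => pt (s j)) (by
    intro p hp
    obtain ⟨j, -, rfl⟩ := Finset.mem_image.1 hp
    exact pt_ne _)
  have hl' : ∀ j, ∑ i, l i * pt (s j) i ≠ 0 := fun j =>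
    hl _ (Finset.mem_image_of_mem _ (Finset.mem_univ j))
  set c : Fin r → ℂ := fun j => (∑ i, l i * pt (s j) i)⁻¹ with hc
  set P : Fin r → Fin (n + 1) → ℂ := fun j => c j • pt (s j) with hP
  have hc0 : ∀ j, c j ≠ 0 := fun j => inv_ne_zero (hl' j)
  have hlP : ∀ j, ∑ i, l i * P j i = 1 := by
    intro j
    have h1 : ∀ i, l i * P j i = (l i * pt (s j) i) * c j := by
      intro i
      rw [hP]
      change l i * (c j * pt (s j) i) = _
      ring
    rw [Finset.sum_congr rfl fun i _ => h1 i, ← Finset.sum_mul]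
    exact mul_inv_cancel₀ (hl' j)
  have hev : ∀ (j : Fin r) (m : ℕ) (u : MvPolynomial (Fin (n + 1)) ℂ), u.IsHomogeneous m →
      eval (P j) u = c j ^ m * eval (pt (s j)) u := fun j m u hu => eval_homog u m hu _ _
  have hrat' : ∀ j : Fin r, ∀ (m : ℕ) (θ : Fin (n + 1) → MvPolynomial (Fin (n + 1)) ℂ),
      (∀ l, (θ l).IsHomogeneous (m + 1)) → ∑ l, θ l * pderiv l f = 0 →
        eval (P j) (dv θ) = (m : ℂ) * ∑ i, l i * eval (P j) (θ i) := by
    intro j m θ hθ hk
    obtain ⟨a, h1, h2⟩ := hrat j (m + 1) θ hθ hk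
    have h3 : (dv θ).IsHomogeneous m := by
      unfold dv
      refine IsHomogeneous.sum _ _ _ fun i _ => ?_
      have h2 := (hθ i).pderiv (i := i)
      rwa [Nat.add_sub_cancel] at h2
    have h4 : ∀ i, l i * eval (P j) (θ i) = (c j ^ m * a) * (l i * P j i) := by
      intro i
      rw [hev j (m + 1) _ (hθ i), h1, hP]
      change _ = (c j ^ m * a) * (l i * (c j * pt (s j) i))
      ring
    rw [hev j m _ h3, h2, Finset.sum_congr rfl fun i _ => h4 i, ← Finset.mul_sum, hlP]
    push_cast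
    ring
  -- the linear fields
  let K : Submodule ℂ (Fin (n + 1) → MvPolynomial (Fin (n + 1)) ℂ) :=
    { carrier := {θ | (∀ l, (θ l).IsHomogeneous 1) ∧ ∑ l, θ l * pderiv l f = 0}
      add_mem' := by
        rintro θ θ' ⟨h1, h2⟩ ⟨h3, h4⟩
        refine ⟨fun l => (h1 l).add (h3 l), ?_⟩
        have h5 : ∀ l, (θ + θ') l * pderiv l f = θ l * pderiv l f + θ' l * pderiv l f :=
          fun l => by rw [Pi.add_apply, add_mul]
        rw [Finset.sum_congr rfl fun l _ => h5 l, Finset.sum_add_distrib, h2, h4, add_zero]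
      zero_mem' := by
        refine ⟨fun l => isHomogeneous_zero _ _ _, ?_⟩
        exact Finset.sum_eq_zero fun l _ => by rw [Pi.zero_apply, zero_mul]
      smul_mem' := by
        rintro a θ ⟨h1, h2⟩
        refine ⟨fun l => ?_, ?_⟩
        · rw [Pi.smul_apply, smul_eq_C_mul]
          have h3 := (isHomogeneous_C (Fin (n + 1)) a).mul (h1 l)
          rwa [zero_add] at h3
        · have h5 : ∀ l, (a • θ) l * pderiv l f = C a * (θ l * pderiv l f) := fun l => by
            rw [Pi.smul_apply, smul_eq_C_mul, mul_assoc]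
          rw [Finset.sum_congr rfl fun l _ => h5 l, ← Finset.mul_sum, h2, mul_zero] }
  let A : K →ₗ[ℂ] (Fin r → ℂ) :=
    { toFun := fun θ j => ∑ i, l i * eval (P j) (θ.1 i)
      map_add' := by
        intro θ θ'
        funext j
        rw [Pi.add_apply, ← Finset.sum_add_distrib]
        refine Finset.sum_congr rfl fun i _ => ?_
        rw [Submodule.coe_add, Pi.add_apply, map_add, mul_add]
      map_smul' := by
        intro a θ
        funext j
        rw [RingHom.id_apply, Pi.smul_apply, smul_eq_mul, Finset.mul_sum]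
        refine Finset.sum_congr rfl fun i _ => ?_
        rw [Submodule.coe_smul, Pi.smul_apply, smul_eval]
        ring }
  by_cases hone : (1 : Fin r → ℂ) ∈ LinearMap.range A
  · right
    obtain ⟨⟨θ, hθ1, hθ2⟩, hθ⟩ := hone
    refine ⟨θ, hθ1, hθ2, fun j m => ?_⟩
    obtain ⟨a, h1, -⟩ := hrat j 1 θ hθ1 hθ2
    have h2 : ∑ i, l i * eval (P j) (θ i) = 1 := congrFun hθ j
    have h4 : ∀ i, l i * eval (P j) (θ i) = a * (l i * P j i) := by
      intro i
      rw [hev j 1 _ (hθ1 i), h1, hP]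
      change _ = a * (l i * (c j * pt (s j) i))
      ring
    rw [Finset.sum_congr rfl fun i _ => h4 i, ← Finset.mul_sum, hlP, mul_one] at h2
    rw [h1, h2, one_mul]
  · left
    obtain ⟨φ, hφ1, hφ2⟩ := Submodule.exists_le_ker_of_notMem hone
    have hα0 : b'.eval (-((n + 1 : ℕ) : ℂ) / d) = 0 := by
      obtain ⟨g, w, N, η, hH, hN⟩ := hw ⟨0, hr⟩
      have h1 := wgt_root hd hf hf0 (hs ⟨0, hr⟩) hH b' hb
      have h0 : constantCoeff (germ (s ⟨0, hr⟩).1 (s ⟨0, hr⟩).2 f) = 0 := by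
        rw [cc_germ]
        have h1 := congrArg (eval (pt (s ⟨0, hr⟩))) (euler_hom f d hf)
        rw [map_sum, map_mul, eval_C] at h1
        rw [Finset.sum_eq_zero fun l _ => by rw [map_mul, hs, mul_zero]] at h1
        exact (mul_eq_zero.1 h1.symm).resolve_left hd0
      have h1' : ∀ t, constantCoeff (pderiv t (germ (s ⟨0, hr⟩).1 (s ⟨0, hr⟩).2 f)) = 0 := by
        intro t
        rw [pd_germ, cc_germ]
        exact hs _ _
      have hW : WHI g w N := whk_whi hH hn h0 h1'
      have hNpos : 0 < N := lt_of_le_of_lt (Nat.zero_le _) (hW.lt ⟨0, hn⟩)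
      have hN0 : (N : ℂ) ≠ 0 := by exact_mod_cast hNpos.ne'
      have h2 : -((∑ t, w t : ℕ) : ℂ) / N = -((n + 1 : ℕ) : ℂ) / d := by
        have h4 : (d : ℂ) * ((∑ t, w t : ℕ) : ℂ) = ((n + 1 : ℕ) : ℂ) * N := by exact_mod_cast hN
        field_simp
        linear_combination (-1 : ℂ) * h4
      rwa [h2] at h1
    refine ⟨hα0, ?_⟩
    set e : Fin r → ℂ := fun j => φ (Pi.single j 1) with he
    have hφe : ∀ v : Fin r → ℂ, φ v = ∑ j, e j * v j := by
      intro v
      conv_lhs => rw [pi_eq_sum_univ' v, map_sum]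
      refine Finset.sum_congr rfl fun j _ => ?_
      rw [map_smul, smul_eq_mul, he, mul_comm]
    have hsum : ∑ j, e j ≠ 0 := by
      intro h
      apply hφ1
      rw [hφe, ← h]
      exact Finset.sum_congr rfl fun j _ => by rw [Pi.one_apply, mul_one]
    have hKV : KV f l (vL P e) := by
      refine kv_line f d (by omega) hf l (fun j k θ _ hθ hk => hrat' j k θ hθ hk)
        (fun θ hθ hk => ?_)
      have h1 : φ (A ⟨θ, hθ, hk⟩) = 0 := hφ2 ⟨_, rfl⟩
      rw [hφe] at h1
      exact h1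
    obtain ⟨P0, hP0⟩ := hb
    have h1 : constantCoeff (1 : MvPolynomial (Fin (n + 1)) ℂ) ≠ 0 := by
      rw [map_one]
      exact one_ne_zero
    obtain ⟨b2, hb2, P', R, hR⟩ := exists_red f hf0 (cc_form hd hf hf0) 1 h1 _ P0
      (fun s => by rw [one_mul]; exact hP0 s)
    have hX : (Polynomial.X + 1 : Polynomial ℂ) ≠ 0 := by
      have := Polynomial.X_add_C_ne_zero (1 : ℂ)
      rwa [map_one] at this
    have hbb : b' = b2 := mul_left_cancel₀ hX hb2
    subst hbb
    have hPf : ∀ (i : Fin (n + 1)) (j : Fin r), eval (P j) (pderiv i f) = 0 := by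
      intro i j
      rw [hev j (d - 1) _ hf.pderiv, hs, mul_zero]
    have hPf0 : ∀ j, eval (P j) f = 0 := by
      intro j
      have h1 := congrArg (eval (P j)) (euler_hom f d hf)
      rw [map_sum, map_mul, eval_C] at h1
      rw [Finset.sum_eq_zero fun l _ => by rw [map_mul, hPf, mul_zero]] at h1
      exact (mul_eq_zero.1 h1.symm).resolve_left hd0
    exact dbl_red hf0 (cc_form hd hf hf0) (cc_pd_form hd hf hf0) (lty hd hf hf0 H) hKV
      (vL_mul f d hf hPf0) (fun i h => vL_mul (pderiv i f) (d - 1) hf.pderiv (hPf i) h)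
      (fun i => X i) d hd0 (euler_hom f d hf) (fun i => constantCoeff_X _ i)
      (-((n + 1 : ℕ) : ℂ) / d) ((∑ j, e j) / d) (by rw [dv_X hd hf hf0])
      (div_ne_zero hsum hd0) (vL_Su l hlP d hd0) 1 h1 b' P' R hR hα0

end Pool.Agent.H940.M
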