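import Pool.Agent.H940.M.Red

set_option autoImplicit false
set_option linter.unusedSectionVars false
set_option linter.unusedVariables false

/-! # Functionals -/

namespace Pool.Agent.H940.M

open MvPolynomial
open Pool.Agent.H628R4.TP (weylS)
open Pool.Agent.H940.LT

variable {σ : Type} [Fintype σ] [DecidableEq σ]

/-- the values at constants -/
noncomputable def ev (l : σ → ℂ) : MvPolynomial σ (MvPolynomial σ ℂ) →+* MvPolynomial σ ℂ :=
  eval fun i => C (l i)

/-- `v` behaves as an integral which is killed by the fields which kill `f`. -/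
def KV (f : MvPolynomial σ ℂ) (l : σ → ℂ) (v : MvPolynomial σ ℂ →ₗ[ℂ] ℂ) : Prop :=
  ∀ η : σ → MvPolynomial σ ℂ, ∑ i, η i * pderiv i f = 0 → v (∑ i, C (l i) * η i) = v (dv η)

theorem ev_linF (l : σ → ℂ) (η : σ → MvPolynomial σ ℂ) :
    ev l (linF η) = ∑ i, C (l i) * η i := by
  unfold ev linF
  rw [map_sum]
  exact Finset.sum_congr rfl fun i _ => by rw [map_mul, eval_C, eval_X, mul_comm]

theorem ev_monomial (l : σ → ℂ) (γ : σ →₀ ℕ) (u : MvPolynomial σ ℂ) :
    ev l (monomial γ u) = C (∏ i, l i ^ γ i) * u := by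
  unfold ev
  rw [eval_monomial, Finsupp.prod_fintype _ _ (fun i => by rw [pow_zero]), mul_comm, map_prod]
  congr 1
  exact Finset.prod_congr rfl fun i _ => (map_pow _ _ _).symm

theorem v_C_mul (v : MvPolynomial σ ℂ →ₗ[ℂ] ℂ) (c : ℂ) (u : MvPolynomial σ ℂ) :
    v (C c * u) = c * v u := by
  rw [C_mul', map_smul, smul_eq_mul]

variable {f : MvPolynomial σ ℂ} {l : σ → ℂ} {v : MvPolynomial σ ℂ →ₗ[ℂ] ℂ}

theorem Rk_red_v (hK : KV f l v) (m : ℕ) (Θ : MvPolynomial σ (MvPolynomial σ ℂ))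
    (hΘ : Θ ∈ Rk (fun i => pderiv i f) m) :
    ∃ Φ : MvPolynomial σ (MvPolynomial σ ℂ), Φ.totalDegree ≤ m ∧
      (∀ s : ℕ, Lam Θ (f ^ s) = Lam Φ (f ^ s)) ∧ v (ev l Θ) = v (ev l Φ) := by
  classical
  unfold Rk at hΘ
  induction hΘ using AddSubmonoid.closure_induction with
  | mem Θ h =>
    obtain ⟨γ, η, hγ, hη, rfl⟩ := h
    refine ⟨monomial γ (dv η), ?_, fun s => Lam_linF η f hη γ s, ?_⟩
    · refine (totalDegree_monomial_le _ _).trans ?_
      rw [← hγ]
      rfl
    · rw [map_mul, ev_linF, ev_monomial, ev_monomial, mul_one, v_C_mul, v_C_mul, hK η hη]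
  | zero => exact ⟨0, by simp, fun s => rfl, rfl⟩
  | add x y _ _ hx hy =>
    obtain ⟨Φ, h1, h2, h3⟩ := hx
    obtain ⟨Ψ, h5, h6, h7⟩ := hy
    refine ⟨Φ + Ψ, (totalDegree_add _ _).trans (max_le h1 h5), fun s => ?_, ?_⟩
    · rw [Lam_add, Lam_add, h2, h6]
    · rw [map_add, map_add, map_add, map_add, h3, h7]

/-- **Operators which kill all the powers of `f`.** -/
theorem ev_zero (hf : f ≠ 0) (hL : LTy fun i => pderiv i f) (hK : KV f l v) :
    ∀ (m : ℕ) (Φ : MvPolynomial σ (MvPolynomial σ ℂ)), Φ.totalDegree ≤ m →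
      (∀ s : ℕ, Lam Φ (f ^ s) = 0) → v (ev l Φ) = 0 := by
  intro m
  induction m with
  | zero =>
    intro Φ hΦ h
    have h1 : Φ = C (coeff 0 Φ) := (totalDegree_eq_zero_iff_eq_C.1 (Nat.le_zero.1 hΦ))
    have h2 := h 0
    rw [h1, ← monomial_zero', Lam_monomial, D_zero, pow_zero, mul_one] at h2
    rw [h1, h2, map_zero, map_zero, map_zero]
  | succ m ih =>
    intro Φ hΦ h
    set Θ := homogeneousComponent (m + 1) Φ with hΘ
    have h1 : Θ ∈ LinI fun i => pderiv i f :=
      hL (m + 1) Θ (homogeneousComponent_isHomogeneous _ _) (eval_homComp f hf _ Φ hΦ h)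
    have h2 : Θ ∈ Rk (fun i => pderiv i f) m := by
      have := homComp_mem _ Θ h1 m
      rwa [hΘ, homogeneousComponent_of_mem (homogeneousComponent_isHomogeneous (m + 1) Φ),
        if_pos rfl] at this
    obtain ⟨Ψ, h3, h4, h5⟩ := Rk_red_v hK m Θ h2
    have h7 : (Φ - Θ + Ψ).totalDegree ≤ m := by
      refine (totalDegree_add _ _).trans (max_le ?_ h3)
      have h8 : Φ - Θ = ∑ i ∈ Finset.range (m + 1), homogeneousComponent i Φ := by
        have h9 : ∑ i ∈ Finset.range (m + 1 + 1), homogeneousComponent i Φ = Φ := by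
          rw [← Finset.sum_subset (Finset.range_subset_range.2
            (show Φ.totalDegree + 1 ≤ m + 1 + 1 by omega)), sum_homogeneousComponent]
          intro j _ hj
          rw [Finset.mem_range, not_lt] at hj
          exact homogeneousComponent_eq_zero _ _ (by omega)
        rw [Finset.sum_range_succ, ← hΘ] at h9
        linear_combination -h9
      rw [h8]
      refine totalDegree_finsetSum_le fun i hi => ?_
      rw [Finset.mem_range] at hi
      refine (homogeneousComponent_isHomogeneous i Φ).totalDegree_le.trans (by omega)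
    have h10 : ∀ s : ℕ, Lam (Φ - Θ + Ψ) (f ^ s) = 0 := by
      intro s
      rw [Lam_add, Lam_sub, h s, h4 s]
      ring
    have h11 := ih _ h7 h10
    rw [map_add, map_sub, map_add, map_sub, h5] at h11
    linear_combination h11

/-- the transposed multiplication by `s` -/
noncomputable def Su (l : σ → ℂ) (e : σ → MvPolynomial σ ℂ) (N : ℂ) (u : MvPolynomial σ ℂ) :
    MvPolynomial σ ℂ :=
  C N⁻¹ * ((∑ i, C (l i) * (e i * u)) - dl e u)

theorem dl_apply (e : σ → MvPolynomial σ ℂ) (u : MvPolynomial σ ℂ) :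
    dl e u = ∑ i, pderiv i (e i * u) := rfl

theorem dl_C_mul (e : σ → MvPolynomial σ ℂ) (c : ℂ) (u : MvPolynomial σ ℂ) :
    dl e (C c * u) = C c * dl e u := by
  rw [dl_apply, dl_apply, Finset.mul_sum]
  refine Finset.sum_congr rfl fun i _ => ?_
  rw [mul_left_comm, pderiv_C_mul]

theorem ev_mapC (e : σ → MvPolynomial σ ℂ) (Φ : MvPolynomial σ (MvPolynomial σ ℂ)) :
    ev l (mapC (dl e) Φ) = dl e (ev l Φ) := by
  induction Φ using MvPolynomial.induction_on' with
  | monomial β u => rw [mapC_monomial, ev_monomial, ev_monomial, dl_C_mul]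
  | add p q hp hq => rw [mapC_add, map_add, map_add, hp, hq, map_add]

theorem ev_C (u : MvPolynomial σ ℂ) : ev l (C u) = u := by
  unfold ev
  rw [eval_C]

theorem ev_Sop (e : σ → MvPolynomial σ ℂ) (N : ℂ) (Φ : MvPolynomial σ (MvPolynomial σ ℂ)) :
    ev l (Sop e N Φ) = Su l e N (ev l Φ) := by
  unfold Sop Su
  rw [map_mul, ev_C, map_sub, map_sum, ev_mapC]
  congr 2
  refine Finset.sum_congr rfl fun i _ => ?_
  rw [map_mul, map_mul, ev_C]
  congr 1
  unfold ev
  rw [eval_X]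

theorem ev_Sop_iter (e : σ → MvPolynomial σ ℂ) (N : ℂ) (Φ : MvPolynomial σ (MvPolynomial σ ℂ))
    (m : ℕ) : ev l ((Sop e N)^[m] Φ) = (Su l e N)^[m] (ev l Φ) := by
  induction m with
  | zero => rfl
  | succ m ih => rw [Function.iterate_succ_apply', Function.iterate_succ_apply', ev_Sop, ih]

/-- **Functional equations and functionals.** -/
theorem apply_fe (hf : f ≠ 0) (hL : LTy fun i => pderiv i f) (hK : KV f l v)
    (e : σ → MvPolynomial σ ℂ) (N : ℂ) (hN : N ≠ 0)
    (he : ∑ i, e i * pderiv i f = C N * f)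
    (hv1 : ∀ (m : ℕ) (h : MvPolynomial σ ℂ), v ((Su l e N)^[m] (f * h)) = 0)
    (hv2 : ∀ (i : σ) (h : MvPolynomial σ ℂ), v (pderiv i f * h) = 0)
    (H : MvPolynomial σ ℂ) (b : Polynomial ℂ) (P : ℕ →₀ weylS σ) (R : σ → weylS σ)
    (hP : ∀ s : ℕ, H * (C (b.eval (s : ℂ)) * f ^ s) = ap P (s : ℂ) (f * f ^ s) +
      ∑ i, (R i : Module.End ℂ (MvPolynomial σ ℂ)) (pderiv i f * f ^ s)) :
    ∑ m ∈ Finset.range (b.natDegree + 1), b.coeff m * v ((Su l e N)^[m] H) = 0 := by
  classical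
  set Ψ1 : MvPolynomial σ (MvPolynomial σ ℂ) :=
    ∑ m ∈ Finset.range (b.natDegree + 1), C (C (b.coeff m)) * (Sop e N)^[m] (C H) with hΨ1
  have h1 : ∀ s : ℕ, Lam Ψ1 (f ^ s) = H * (C (b.eval (s : ℂ)) * f ^ s) := by
    intro s
    rw [hΨ1, Lam_sum]
    have h1 : ∀ m, Lam (C (C (b.coeff m)) * (Sop e N)^[m] (C H)) (f ^ s) =
        C (b.coeff m * (s : ℂ) ^ m) * (H * f ^ s) := by
      intro m
      rw [Lam_smul, Lam_Sop_iter e N hN f he, ← monomial_zero', Lam_monomial, D_zero, smul_smul,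
        smul_eq_C_mul]
    rw [Finset.sum_congr rfl fun m _ => h1 m, ← Finset.sum_mul, ← map_sum,
      ← Polynomial.eval_eq_sum_range]
    ring
  have h2 : v (ev l Ψ1) = ∑ m ∈ Finset.range (b.natDegree + 1), b.coeff m *
      v ((Su l e N)^[m] H) := by
    rw [hΨ1, map_sum, map_sum]
    refine Finset.sum_congr rfl fun m _ => ?_
    rw [map_mul, ev_C, v_C_mul, ev_Sop_iter, ev_C]
  have hright : ∀ P : ℕ →₀ weylS σ, ∃ Ψ : MvPolynomial σ (MvPolynomial σ ℂ),
      (∀ s : ℕ, Lam Ψ (f ^ s) = ap P (s : ℂ) (f * f ^ s)) ∧ v (ev l Ψ) = 0 := by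
    intro P
    induction P using Finsupp.induction_linear with
    | zero => exact ⟨0, fun s => by rw [Lam_zero, ap_zero], by rw [map_zero, map_zero]⟩
    | add P Q hP hQ =>
      obtain ⟨Ψ1, h1, h2⟩ := hP
      obtain ⟨Ψ2, h3, h4⟩ := hQ
      exact ⟨Ψ1 + Ψ2, fun s => by rw [Lam_add, h1, h3, ap_add],
        by rw [map_add, map_add, h2, h4, add_zero]⟩
    | single m Q =>
      obtain ⟨Ψ, hΨ⟩ := exists_Lam (Q : Module.End ℂ (MvPolynomial σ ℂ)) Q.2 (C 1)
      refine ⟨(Sop e N)^[m] (C f * Ψ), fun s => ?_, ?_⟩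
      · rw [ap_single, Lam_Sop_iter e N hN f he, Lam_C_mul, ← hΨ,
          ← monomial_zero', Lam_monomial, D_zero, one_mul]
      · rw [ev_Sop_iter, map_mul, ev_C]
        exact hv1 m _
  obtain ⟨Ψ2, h3, h4⟩ := hright P
  choose Ψ hΨ using fun i => exists_Lam (R i : Module.End ℂ (MvPolynomial σ ℂ)) (R i).2 (C 1)
  have h5 : ∀ i (s : ℕ), Lam (C (pderiv i f) * Ψ i) (f ^ s) =
      (R i : Module.End ℂ (MvPolynomial σ ℂ)) (pderiv i f * f ^ s) := by
    intro i s
    rw [Lam_C_mul, ← hΨ, ← monomial_zero', Lam_monomial, D_zero, one_mul]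
  have h6 := ev_zero hf hL hK _ (Ψ1 - Ψ2 - ∑ i, C (pderiv i f) * Ψ i) le_rfl (fun s => by
    rw [Lam_sub, Lam_sub, h1, h3, hP, Lam_sum, Finset.sum_congr rfl fun i _ => h5 i s]
    ring)
  rw [map_sub, map_sub, map_sub, map_sub, h2, h4, map_sum, map_sum, sub_zero] at h6
  have h7 : ∀ i, v (ev l (C (pderiv i f) * Ψ i)) = 0 := by
    intro i
    rw [map_mul, ev_C]
    exact hv2 i _
  rw [Finset.sum_congr rfl fun i _ => h7 i, Finset.sum_const_zero, sub_zero] at h6
  exact h6

/-- the value at the origin -/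
noncomputable def d0 : MvPolynomial σ ℂ →ₗ[ℂ] ℂ where
  toFun u := constantCoeff u
  map_add' u w := map_add _ _ _
  map_smul' c u := by
    rw [RingHom.id_apply, smul_eq_C_mul, map_mul, constantCoeff_C, smul_eq_mul]

theorem d0_apply (u : MvPolynomial σ ℂ) : d0 u = constantCoeff u := rfl

theorem d0_Su (e : σ → MvPolynomial σ ℂ) (N : ℂ) (he0 : ∀ i, constantCoeff (e i) = 0)
    (u : MvPolynomial σ ℂ) : constantCoeff (Su l e N u) =
      - constantCoeff (dv e) / N * constantCoeff u := by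
  unfold Su
  rw [map_mul, constantCoeff_C, map_sub, map_sum, dl_apply, map_sum]
  have h1 : ∀ i, constantCoeff (C (l i) * (e i * u)) = 0 := by
    intro i
    rw [map_mul, map_mul, he0, zero_mul, mul_zero]
  have h2 : ∀ i, constantCoeff (pderiv i (e i * u)) =
      constantCoeff (pderiv i (e i)) * constantCoeff u := by
    intro i
    rw [pderiv_mul, map_add, map_mul, map_mul, he0, zero_mul, add_zero]
  rw [Finset.sum_congr rfl fun i _ => h1 i, Finset.sum_congr rfl fun i _ => h2 i,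
    Finset.sum_const_zero, ← Finset.sum_mul]
  unfold dv
  rw [map_sum]
  ring

theorem d0_Su_iter (e : σ → MvPolynomial σ ℂ) (N : ℂ) (he0 : ∀ i, constantCoeff (e i) = 0)
    (u : MvPolynomial σ ℂ) (m : ℕ) : constantCoeff ((Su l e N)^[m] u) =
      (- constantCoeff (dv e) / N) ^ m * constantCoeff u := by
  induction m with
  | zero => simp
  | succ m ih =>
    rw [Function.iterate_succ_apply', d0_Su e N he0, ih, pow_succ]
    ring

/-- **The simple root of the reduced equation.** -/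
theorem root_red (hf : f ≠ 0) (hf0 : constantCoeff f = 0)
    (hfi : ∀ i, constantCoeff (pderiv i f) = 0) (hL : LTy fun i => pderiv i f)
    (hK : ∀ η : σ → MvPolynomial σ ℂ, ∑ i, η i * pderiv i f = 0 → constantCoeff (dv η) = 0)
    (e : σ → MvPolynomial σ ℂ) (N : ℂ) (hN : N ≠ 0)
    (he : ∑ i, e i * pderiv i f = C N * f) (he0 : ∀ i, constantCoeff (e i) = 0)
    (H : MvPolynomial σ ℂ) (hH : constantCoeff H ≠ 0) (b : Polynomial ℂ) (P : ℕ →₀ weylS σ)
    (R : σ → weylS σ)
    (hP : ∀ s : ℕ, H * (C (b.eval (s : ℂ)) * f ^ s) = ap P (s : ℂ) (f * f ^ s) +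
      ∑ i, (R i : Module.End ℂ (MvPolynomial σ ℂ)) (pderiv i f * f ^ s)) :
    b.eval (- constantCoeff (dv e) / N) = 0 := by
  have hK' : KV f (0 : σ → ℂ) d0 := by
    intro η hη
    rw [d0_apply, d0_apply, hK η hη, map_sum]
    exact Finset.sum_eq_zero fun i _ => by
      rw [map_mul, Pi.zero_apply, map_zero, map_zero, zero_mul]
  have h1 := apply_fe hf hL hK' e N hN he (fun m h => by
    rw [d0_apply, d0_Su_iter e N he0, map_mul, hf0, zero_mul, mul_zero]) (fun i h => by
    rw [d0_apply, map_mul, hfi, zero_mul]) H b P R hP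
  have h2 : ∀ m, b.coeff m * d0 ((Su (0 : σ → ℂ) e N)^[m] H) =
      (b.coeff m * (- constantCoeff (dv e) / N) ^ m) * constantCoeff H := by
    intro m
    rw [d0_apply, d0_Su_iter e N he0]
    ring
  rw [Finset.sum_congr rfl fun m _ => h2 m, ← Finset.sum_mul, ← Polynomial.eval_eq_sum_range] at h1
  exact (mul_eq_zero.1 h1).resolve_right hH

/-- **The double root of the reduced equation.** -/
theorem dbl_red (hf : f ≠ 0) (hf0 : constantCoeff f = 0)
    (hfi : ∀ i, constantCoeff (pderiv i f) = 0) (hL : LTy fun i => pderiv i f)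
    (hK : KV f l v) (hv1 : ∀ h, v (f * h) = 0)
    (hv2 : ∀ (i : σ) (h : MvPolynomial σ ℂ), v (pderiv i f * h) = 0)
    (e : σ → MvPolynomial σ ℂ) (N : ℂ) (hN : N ≠ 0)
    (he : ∑ i, e i * pderiv i f = C N * f) (he0 : ∀ i, constantCoeff (e i) = 0)
    (α κ : ℂ) (hα : α = - constantCoeff (dv e) / N) (hκ : κ ≠ 0)
    (hvS : ∀ u, v (Su l e N u) = α * v u + κ * constantCoeff u)
    (H : MvPolynomial σ ℂ) (hH : constantCoeff H ≠ 0) (b : Polynomial ℂ) (P : ℕ →₀ weylS σ)
    (R : σ → weylS σ)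
    (hP : ∀ s : ℕ, H * (C (b.eval (s : ℂ)) * f ^ s) = ap P (s : ℂ) (f * f ^ s) +
      ∑ i, (R i : Module.End ℂ (MvPolynomial σ ℂ)) (pderiv i f * f ^ s))
    (hb : b.eval α = 0) : (Polynomial.derivative b).eval α = 0 := by
  have hit : ∀ (m : ℕ) (u : MvPolynomial σ ℂ), v ((Su l e N)^[m] u) =
      α ^ m * v u + κ * (m * α ^ (m - 1)) * constantCoeff u := by
    intro m u
    induction m with
    | zero => simp
    | succ m ih =>
      rw [Function.iterate_succ_apply', hvS, ih, d0_Su_iter e N he0, ← hα, Nat.add_sub_cancel]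
      rcases m with - | m
      · simp
      · rw [Nat.add_sub_cancel]
        push_cast
        ring
  have h1 := apply_fe hf hL hK e N hN he (fun m h => by
    rw [hit, hv1, map_mul, hf0]
    ring) hv2 H b P R hP
  have h2 : ∀ m, b.coeff m * v ((Su l e N)^[m] H) =
      (b.coeff m * α ^ m) * v H + (b.coeff m * (m * α ^ (m - 1))) * (κ * constantCoeff H) := by
    intro m
    rw [hit]
    ring
  rw [Finset.sum_congr rfl fun m _ => h2 m, Finset.sum_add_distrib, ← Finset.sum_mul,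
    ← Finset.sum_mul, ← Polynomial.eval_eq_sum_range, hb, zero_mul, zero_add] at h1
  have h3 : (Polynomial.derivative b).eval α =
      ∑ m ∈ Finset.range (b.natDegree + 1), b.coeff m * (m * α ^ (m - 1)) := by
    rw [Polynomial.derivative_eval, Polynomial.sum_over_range _ (by simp)]
    exact Finset.sum_congr rfl fun m _ => by ring
  rw [h3]
  exact (mul_eq_zero.1 h1).resolve_right (mul_ne_zero hκ hH)

end Pool.Agent.H940.M
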