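import Pool.Agent.H940.M.Fun
import Pool.Agent.H940.LT.Hom

set_option autoImplicit false
set_option linter.unusedSectionVars false
set_option linter.unusedVariables false

/-! # Finite parts of integrals along lines -/

namespace Pool.Agent.H940.M

open MvPolynomial
open Pool.Agent.H628R4.TP (weylS)
open Pool.Agent.H940.LT

variable {n r : ℕ}

/-- the finite part of `∫ t ^ k exp (-t) dt / t` -/
def Gm (k : ℕ) : ℕ := if k = 0 then 0 else (k - 1).factorial

theorem Gm_zero : Gm 0 = 0 := if_pos rfl

theorem Gm_succ (k : ℕ) : Gm (k + 1) = k.factorial := by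
  unfold Gm
  rw [if_neg (Nat.succ_ne_zero k), Nat.add_sub_cancel]

/-- the finite part of the integral along the lines through the points `P_j` -/
noncomputable def vL (P : Fin r → Fin (n + 1) → ℂ) (c : Fin r → ℂ) :
    MvPolynomial (Fin (n + 1)) ℂ →ₗ[ℂ] ℂ :=
  (basisMonomials (Fin (n + 1)) ℂ).constr ℂ fun α : Fin (n + 1) →₀ ℕ =>
    (Gm α.degree : ℂ) * ∑ j, c j * ∏ i, P j i ^ α i

variable {P : Fin r → Fin (n + 1) → ℂ} {c : Fin r → ℂ}

theorem vL_monomial (α : Fin (n + 1) →₀ ℕ) (a : ℂ) : vL P c (monomial α a) =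
    a * ((Gm α.degree : ℂ) * ∑ j, c j * ∏ i, P j i ^ α i) := by
  have h1 : (monomial α a : MvPolynomial (Fin (n + 1)) ℂ) = a • monomial α 1 := by
    rw [smul_monomial, smul_eq_mul, mul_one]
  have h2 : (monomial α 1 : MvPolynomial (Fin (n + 1)) ℂ) = basisMonomials (Fin (n + 1)) ℂ α := by
    rw [coe_basisMonomials]
  rw [h1, map_smul, h2]
  unfold vL
  rw [Module.Basis.constr_basis, smul_eq_mul]

theorem vL_hom (u : MvPolynomial (Fin (n + 1)) ℂ) (k : ℕ) (hu : u.IsHomogeneous k) :
    vL P c u = (Gm k : ℂ) * ∑ j, c j * eval (P j) u := by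
  have h1 : ∀ j, eval (P j) u = ∑ α ∈ u.support, coeff α u * ∏ i, P j i ^ α i := fun j =>
    eval_eq' _ _
  have h2 : vL P c u = ∑ α ∈ u.support, vL P c (monomial α (coeff α u)) := by
    conv_lhs => rw [u.as_sum, map_sum]
  rw [h2]
  have h3 : ∀ α ∈ u.support, vL P c (monomial α (coeff α u)) =
      (Gm k : ℂ) * ∑ j, c j * (coeff α u * ∏ i, P j i ^ α i) := by
    intro α hα
    have h4 : α.degree = k := by
      have h5 := hu (mem_support_iff.1 hα)
      rw [Finsupp.weight_apply, Finsupp.sum_fintype _ _ (by simp)] at h5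
      rw [Finsupp.degree_eq_sum, ← h5]
      exact Finset.sum_congr rfl fun i _ => by simp
    rw [vL_monomial, h4, Finset.mul_sum, Finset.mul_sum, Finset.mul_sum]
    exact Finset.sum_congr rfl fun j _ => by ring
  rw [Finset.sum_congr rfl h3, ← Finset.mul_sum, Finset.sum_comm]
  congr 1
  refine Finset.sum_congr rfl fun j _ => ?_
  rw [h1, Finset.mul_sum]

/-- sums of homogeneous polynomials -/
theorem hom_ind (p : MvPolynomial (Fin (n + 1)) ℂ → Prop)
    (h1 : ∀ k u, IsHomogeneous u k → p u) (h2 : ∀ u w, p u → p w → p (u + w)) (h0 : p 0)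
    (u : MvPolynomial (Fin (n + 1)) ℂ) : p u := by
  rw [← sum_homogeneousComponent u]
  exact Finset.sum_induction _ p h2 h0 fun k _ => h1 k _ (homogeneousComponent_isHomogeneous k u)

theorem vL_mul (f : MvPolynomial (Fin (n + 1)) ℂ) (d : ℕ) (hf : f.IsHomogeneous d)
    (hP : ∀ j, eval (P j) f = 0) (h : MvPolynomial (Fin (n + 1)) ℂ) : vL P c (f * h) = 0 := by
  refine hom_ind (fun h => vL P c (f * h) = 0) (fun k u hu => ?_) (fun u w hu hw => ?_) ?_ h
  · rw [vL_hom _ _ (hf.mul hu), Finset.sum_eq_zero, mul_zero]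
    intro j _
    rw [map_mul, hP, zero_mul, mul_zero]
  · rw [mul_add, map_add, hu, hw, add_zero]
  · rw [mul_zero, map_zero]

theorem vL_Su (l : Fin (n + 1) → ℂ) (hl : ∀ j, ∑ i, l i * P j i = 1) (N : ℂ) (hN : N ≠ 0)
    (u : MvPolynomial (Fin (n + 1)) ℂ) : vL P c (Su l (fun i => X i) N u) =
      (-((n + 1 : ℕ) : ℂ) / N) * vL P c u + ((∑ j, c j) / N) * constantCoeff u := by
  refine hom_ind (fun u => vL P c (Su l (fun i => X i) N u) =
      (-((n + 1 : ℕ) : ℂ) / N) * vL P c u + ((∑ j, c j) / N) * constantCoeff u)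
      (fun k u hu => ?_) (fun u w hu hw => ?_) ?_ u
  · have h1 : dl (fun i => (X i : MvPolynomial (Fin (n + 1)) ℂ)) u =
        C (((n + 1 : ℕ) : ℂ) + k) * u := by
      rw [dl_apply]
      have h2 : ∀ i, pderiv i (X i * u) = u + X i * pderiv i u := by
        intro i
        rw [pderiv_mul, pderiv_X_self, one_mul]
      rw [Finset.sum_congr rfl fun i _ => h2 i, Finset.sum_add_distrib, euler_hom u k hu,
        Finset.sum_const, Finset.card_univ, Fintype.card_fin, nsmul_eq_mul, map_add, add_mul,
        map_natCast, map_natCast]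
    have h2 : (∑ i, C (l i) * (X i * u) : MvPolynomial (Fin (n + 1)) ℂ).IsHomogeneous (k + 1) := by
      refine IsHomogeneous.sum _ _ _ fun i _ => ?_
      have h3 := (isHomogeneous_C (Fin (n + 1)) (l i)).mul ((isHomogeneous_X ℂ i).mul hu)
      rwa [zero_add, add_comm 1 k] at h3
    have h3 : ∀ j, eval (P j) (∑ i, C (l i) * (X i * u)) = eval (P j) u := by
      intro j
      rw [map_sum]
      have h4 : ∀ i, eval (P j) (C (l i) * (X i * u)) = (l i * P j i) * eval (P j) u := by
        intro i
        rw [map_mul, map_mul, eval_C, eval_X, mul_assoc]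
      rw [Finset.sum_congr rfl fun i _ => h4 i, ← Finset.sum_mul, hl, one_mul]
    have h4 : vL P c (Su l (fun i => X i) N u) = N⁻¹ * ((k.factorial : ℂ) *
        ∑ j, c j * eval (P j) u - (((n + 1 : ℕ) : ℂ) + k) * vL P c u) := by
      unfold Su
      rw [v_C_mul, map_sub, h1, v_C_mul, vL_hom _ _ h2, Gm_succ]
      congr 3
      exact Finset.sum_congr rfl fun j _ => by rw [h3]
    rw [h4, vL_hom u k hu]
    rcases k with - | k
    · rw [Gm_zero, Nat.factorial_zero]
      have h5 : u = C (coeff 0 u) := (totalDegree_eq_zero_iff_eq_C.1 (Nat.le_zero.1 hu.totalDegree_le))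
      have h6 : ∀ j, eval (P j) u = constantCoeff u := by
        intro j
        rw [h5, eval_C, constantCoeff_C]
      rw [Finset.sum_congr rfl fun j _ => by rw [h6 j], ← Finset.sum_mul]
      push_cast
      field_simp
      ring
    · have h5 : constantCoeff u = 0 := by
        rw [constantCoeff_eq]
        exact hu.coeff_eq_zero (by simp)
      rw [h5, Gm_succ, Nat.factorial_succ]
      push_cast
      field_simp
      ring
  · have h1 : Su l (fun i => X i) N (u + w) = Su l (fun i => X i) N u + Su l (fun i => X i) N w := by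
      unfold Su
      rw [map_add]
      have h2 : ∑ i, C (l i) * (X i * (u + w)) = ∑ i, C (l i) * (X i * u) +
          ∑ i, C (l i) * (X i * w) := by
        rw [← Finset.sum_add_distrib]
        exact Finset.sum_congr rfl fun i _ => by ring
      rw [h2]
      ring
    rw [h1, map_add, map_add, map_add, hu, hw]
    ring
  · unfold Su
    simp

/-- the homogeneous components of a field which kills a form -/
theorem kill_comp (f : MvPolynomial (Fin (n + 1)) ℂ) (d : ℕ) (hd : 1 ≤ d) (hf : f.IsHomogeneous d)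
    (η : Fin (n + 1) → MvPolynomial (Fin (n + 1)) ℂ) (hη : ∑ i, η i * pderiv i f = 0) (k : ℕ) :
    ∑ i, homogeneousComponent k (η i) * pderiv i f = 0 := by
  have h1 := congrArg (homogeneousComponent (k + (d - 1))) hη
  rw [map_sum, map_zero] at h1
  rw [← h1]
  refine Finset.sum_congr rfl fun i _ => ?_
  have h2 : η i * pderiv i f = ∑ j ∈ Finset.range ((η i).totalDegree + 1),
      homogeneousComponent j (η i) * pderiv i f := by
    rw [← Finset.sum_mul, sum_homogeneousComponent]
  have h3 : ∀ j, homogeneousComponent (k + (d - 1)) (homogeneousComponent j (η i) * pderiv i f) =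
      if j = k then homogeneousComponent k (η i) * pderiv i f else 0 := by
    intro j
    have h4 := (homogeneousComponent_isHomogeneous j (η i)).mul (hf.pderiv (i := i))
    rw [homogeneousComponent_of_mem h4]
    by_cases hjk : j = k
    · subst hjk
      rw [if_pos rfl, if_pos rfl]
    · rw [if_neg, if_neg hjk]
      omega
  rw [h2, map_sum, Finset.sum_congr rfl fun j _ => h3 j, Finset.sum_ite_eq']
  split_ifs with h
  · rfl
  · rw [Finset.mem_range, not_lt] at h
    rw [homogeneousComponent_eq_zero k (η i) (by omega), zero_mul]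

/-- **The fields which kill `f`.** -/
theorem kv_line (f : MvPolynomial (Fin (n + 1)) ℂ) (d : ℕ) (hd : 1 ≤ d) (hf : f.IsHomogeneous d)
    (l : Fin (n + 1) → ℂ)
    (hrel : ∀ (j : Fin r) (k : ℕ) (η : Fin (n + 1) → MvPolynomial (Fin (n + 1)) ℂ), 1 ≤ k →
      (∀ i, (η i).IsHomogeneous (k + 1)) → ∑ i, η i * pderiv i f = 0 →
      eval (P j) (dv η) = k * ∑ i, l i * eval (P j) (η i))
    (hc : ∀ η : Fin (n + 1) → MvPolynomial (Fin (n + 1)) ℂ, (∀ i, (η i).IsHomogeneous 1) →
      ∑ i, η i * pderiv i f = 0 → ∑ j, c j * ∑ i, l i * eval (P j) (η i) = 0) :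
    KV f l (vL P c) := by
  intro η hη
  have hlin : ∀ (k : ℕ) (θ : Fin (n + 1) → MvPolynomial (Fin (n + 1)) ℂ),
      (∀ i, (θ i).IsHomogeneous k) → vL P c (∑ i, C (l i) * θ i) =
        (Gm k : ℂ) * ∑ j, c j * ∑ i, l i * eval (P j) (θ i) := by
    intro k θ hθ
    have h1 : (∑ i, C (l i) * θ i : MvPolynomial (Fin (n + 1)) ℂ).IsHomogeneous k := by
      refine IsHomogeneous.sum _ _ _ fun i _ => ?_
      have h3 := (isHomogeneous_C (Fin (n + 1)) (l i)).mul (hθ i)
      rwa [zero_add] at h3
    rw [vL_hom _ _ h1]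
    congr 1
    refine Finset.sum_congr rfl fun j _ => ?_
    rw [map_sum]
    congr 1
    exact Finset.sum_congr rfl fun i _ => by rw [map_mul, eval_C]
  have key : ∀ (k : ℕ) (θ : Fin (n + 1) → MvPolynomial (Fin (n + 1)) ℂ),
      (∀ i, (θ i).IsHomogeneous k) → ∑ i, θ i * pderiv i f = 0 →
        vL P c (∑ i, C (l i) * θ i) = vL P c (dv θ) := by
    intro k θ hθ hk
    rw [hlin k θ hθ]
    rcases k with - | k
    · have h1 : dv θ = 0 := by
        unfold dv
        refine Finset.sum_eq_zero fun i _ => ?_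
        have h2 : θ i = C (coeff 0 (θ i)) :=
          totalDegree_eq_zero_iff_eq_C.1 (Nat.le_zero.1 (hθ i).totalDegree_le)
        rw [h2, pderiv_C]
      rw [h1, map_zero, Gm_zero]
      push_cast
      ring
    · have h1 : (dv θ).IsHomogeneous k := by
        unfold dv
        refine IsHomogeneous.sum _ _ _ fun i _ => ?_
        have h2 := (hθ i).pderiv (i := i)
        rwa [Nat.add_sub_cancel] at h2
      rw [vL_hom _ _ h1]
      rcases k with - | k
      · rw [hc θ hθ hk, Gm_zero]
        push_cast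
        ring
      · rw [Gm_succ, Gm_succ, Nat.factorial_succ]
        have h2 : ∀ j, eval (P j) (dv θ) = ((k + 1 : ℕ) : ℂ) * ∑ i, l i * eval (P j) (θ i) :=
          fun j => hrel j (k + 1) θ (Nat.succ_pos k) hθ hk
        have h3 : ∑ j, c j * eval (P j) (dv θ) = ((k + 1 : ℕ) : ℂ) *
            ∑ j, c j * ∑ i, l i * eval (P j) (θ i) := by
          rw [Finset.mul_sum]
          exact Finset.sum_congr rfl fun j _ => by rw [h2 j, mul_left_comm]
        rw [h3]
        push_cast
        ring
  obtain ⟨K, hK⟩ : ∃ K : ℕ, ∀ i, (η i).totalDegree < K := by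
    refine ⟨∑ i, (η i).totalDegree + 1, fun i => ?_⟩
    have := Finset.single_le_sum (f := fun i => (η i).totalDegree) (fun _ _ => Nat.zero_le _)
      (Finset.mem_univ i)
    beta_reduce at this
    omega
  have hdec : ∀ i, η i = ∑ k ∈ Finset.range K, homogeneousComponent k (η i) := by
    intro i
    conv_lhs => rw [← sum_homogeneousComponent (η i)]
    refine Finset.sum_subset (Finset.range_subset_range.2 (hK i)) fun k _ hk => ?_
    rw [Finset.mem_range, not_lt] at hk
    exact homogeneousComponent_eq_zero _ _ (by omega)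
  have h1 : ∑ i, C (l i) * η i = ∑ k ∈ Finset.range K, ∑ i, C (l i) *
      homogeneousComponent k (η i) := by
    rw [Finset.sum_comm]
    refine Finset.sum_congr rfl fun i _ => ?_
    conv_lhs => rw [hdec i, Finset.mul_sum]
  have h2 : dv η = ∑ k ∈ Finset.range K, dv fun i => homogeneousComponent k (η i) := by
    unfold dv
    rw [Finset.sum_comm]
    refine Finset.sum_congr rfl fun i _ => ?_
    conv_lhs => rw [hdec i, map_sum]
  rw [h1, h2, map_sum, map_sum]
  refine Finset.sum_congr rfl fun k _ => ?_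
  exact key k (fun i => homogeneousComponent k (η i))
    (fun i => homogeneousComponent_isHomogeneous k _) (kill_comp f d hd hf η hη k)

end Pool.Agent.H940.M
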