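import Pool.Agent.H940.M.Trace
import Pool.Agent.H940.M.Line
import Pool.Agent.H940.R.Chart

set_option autoImplicit false
set_option linter.unusedSectionVars false
set_option linter.unusedVariables false

/-! # The divergences of the fields which kill a form, at the singular points -/

namespace Pool.Agent.H940.M

open MvPolynomial Pool.Agent.H940.R Pool.Agent.H940.S
open Pool.Agent.H940.LT (euler_hom)
open Pool.Agent.H940.G (pderiv_germAt)

variable {n : ℕ}

/-- the point of the chart -/
def ptq (i : Fin (n + 1)) (q : Fin n → ℂ) : Fin (n + 1) → ℂ := i.insertNth (1 : ℂ) q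

theorem ptq_same (i : Fin (n + 1)) (q : Fin n → ℂ) : ptq i q i = 1 :=
  Fin.insertNth_apply_same (α := fun _ => ℂ) i 1 q

theorem ptq_above (i : Fin (n + 1)) (q : Fin n → ℂ) (t : Fin n) :
    ptq i q (i.succAbove t) = q t :=
  Fin.insertNth_apply_succAbove (α := fun _ => ℂ) i 1 q t

theorem cc_germ (i : Fin (n + 1)) (q : Fin n → ℂ) (F : MvPolynomial (Fin (n + 1)) ℂ) :
    constantCoeff (germ i q F) = eval (ptq i q) F := by
  have h1 : constantCoeff (germ i q F) = eval 0 (germ i q F) := by
    rw [← eval_zero]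
  rw [h1, eval_germ]
  congr 2
  unfold ptq
  congr 1
  funext t
  simp

theorem pd_germ (i : Fin (n + 1)) (q : Fin n → ℂ) (F : MvPolynomial (Fin (n + 1)) ℂ) (t : Fin n) :
    pderiv t (germ i q F) = germ i q (pderiv (i.succAbove t) F) := pderiv_germAt i q F t

theorem germ_mul (i : Fin (n + 1)) (q : Fin n → ℂ) (F G : MvPolynomial (Fin (n + 1)) ℂ) :
    germ i q (F * G) = germ i q F * germ i q G := map_mul _ _ _

theorem germ_sum {ι : Type} (i : Fin (n + 1)) (q : Fin n → ℂ) (s : Finset ι)
    (F : ι → MvPolynomial (Fin (n + 1)) ℂ) : germ i q (∑ j ∈ s, F j) = ∑ j ∈ s, germ i q (F j) :=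
  map_sum _ _ _

theorem germ_X_same (i : Fin (n + 1)) (q : Fin n → ℂ) : germ i q (X i) = 1 := by
  unfold germ
  rw [aeval_X, Fin.insertNth_apply_same]

theorem germ_X_above (i : Fin (n + 1)) (q : Fin n → ℂ) (t : Fin n) :
    germ i q (X (i.succAbove t)) = X t + C (q t) := by
  unfold germ
  rw [aeval_X, Fin.insertNth_apply_succAbove]

theorem germ_C (i : Fin (n + 1)) (q : Fin n → ℂ) (a : ℂ) : germ i q (C a) = C a := by
  unfold germ
  rw [algHom_C, algebraMap_eq]

theorem germ_zero' (i : Fin (n + 1)) (q : Fin n → ℂ) : germ i q 0 = 0 := map_zero _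

/-- Euler's relation in the chart. -/
theorem euler_germ (i : Fin (n + 1)) (q : Fin n → ℂ) (F : MvPolynomial (Fin (n + 1)) ℂ) (m : ℕ)
    (hF : F.IsHomogeneous m) : germ i q (pderiv i F) = C (m : ℂ) * germ i q F -
      ∑ t, (X t + C (q t)) * germ i q (pderiv (i.succAbove t) F) := by
  have h1 := congrArg (germ i q) (euler_hom F m hF)
  rw [germ_sum, Fin.sum_univ_succAbove _ i, germ_mul, germ_mul, germ_X_same, one_mul] at h1
  have h2 : ∀ t, germ i q (X (i.succAbove t) * pderiv (i.succAbove t) F) =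
      (X t + C (q t)) * germ i q (pderiv (i.succAbove t) F) := by
    intro t
    rw [germ_mul, germ_X_above]
  rw [Finset.sum_congr rfl fun t _ => h2 t] at h1
  rw [germ_C] at h1
  linear_combination h1

variable {f : MvPolynomial (Fin (n + 1)) ℂ} {d : ℕ} (hf : f.IsHomogeneous d)
  {i : Fin (n + 1)} {q : Fin n → ℂ} {g : MvPolynomial (Fin n) ℂ} {w : Fin n → ℕ} {N : ℕ}
  {η : Fin n → MvPowerSeries (Fin n) ℂ} (H : WHK (germ i q f) g w N η) (hn : 0 < n)
  (hs : ∀ j, eval (ptq i q) (pderiv j f) = 0)
include hf H hn hs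

theorem kill_germ (hd : 1 ≤ d) {m : ℕ} (θ : Fin (n + 1) → MvPolynomial (Fin (n + 1)) ℂ)
    (hθ : ∀ l, (θ l).IsHomogeneous m) (hk : ∑ l, θ l * pderiv l f = 0) :
    (∀ l, eval (ptq i q) (θ l) = eval (ptq i q) (θ i) * ptq i q l) ∧
    eval (ptq i q) (∑ l, pderiv l (θ l)) = ((n : ℂ) + m -
      d * (((∑ t, w t : ℕ) : ℂ) / N)) * eval (ptq i q) (θ i) := by
  have hd0 : (d : ℂ) ≠ 0 := by
    rw [Nat.cast_ne_zero]
    omega
  have h0 : constantCoeff (germ i q f) = 0 := by
    have h1 := congrArg (eval (ptq i q)) (euler_hom f d hf)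
    rw [map_sum, map_mul, eval_C] at h1
    rw [Finset.sum_eq_zero fun j _ => by rw [map_mul, hs, mul_zero]] at h1
    rw [cc_germ]
    exact (mul_eq_zero.1 h1.symm).resolve_left hd0
  have h1 : ∀ t, constantCoeff (pderiv t (germ i q f)) = 0 := by
    intro t
    rw [pd_germ, cc_germ, hs]
  set B : Fin n → MvPolynomial (Fin n) ℂ := fun t =>
    germ i q (θ (i.succAbove t)) - germ i q (θ i) * (X t + C (q t)) with hB
  have h2 : ∑ t, B t * pderiv t (germ i q f) = (-(C (d : ℂ) * germ i q (θ i))) * germ i q f := by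
    have h3 := congrArg (germ i q) hk
    rw [germ_sum, Fin.sum_univ_succAbove _ i, germ_mul, euler_germ i q f d hf, germ_zero'] at h3
    have h4 : ∀ t, B t * pderiv t (germ i q f) =
        germ i q (θ (i.succAbove t) * pderiv (i.succAbove t) f) -
        germ i q (θ i) * ((X t + C (q t)) * germ i q (pderiv (i.succAbove t) f)) := by
      intro t
      rw [hB, germ_mul, pd_germ]
      ring
    rw [Finset.sum_congr rfl fun t _ => h4 t, Finset.sum_sub_distrib, ← Finset.mul_sum]
    linear_combination h3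
  obtain ⟨h3, h4⟩ := trace_eq H hn h0 h1 B _ h2
  have h5 : ∀ t, eval (ptq i q) (θ (i.succAbove t)) = eval (ptq i q) (θ i) * q t := by
    intro t
    have h6 := h3 t
    rw [hB] at h6
    beta_reduce at h6
    rw [map_sub, map_mul, cc_germ, cc_germ, map_add, constantCoeff_X, constantCoeff_C, zero_add,
      sub_eq_zero] at h6
    exact h6
  refine ⟨fun l => ?_, ?_⟩
  · induction l using i.succAboveCases with
    | x => rw [ptq_same, mul_one]
    | p t => rw [ptq_above, h5]
  · have h6 : ∀ t, constantCoeff (pderiv t (B t)) =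
        eval (ptq i q) (pderiv (i.succAbove t) (θ (i.succAbove t))) -
        ptq i q (i.succAbove t) * eval (ptq i q) (pderiv (i.succAbove t) (θ i)) -
          eval (ptq i q) (θ i) := by
      intro t
      rw [hB]
      beta_reduce
      rw [map_sub, pderiv_mul, map_sub, map_add, map_mul, map_mul, pd_germ, pd_germ, cc_germ,
        cc_germ, cc_germ, map_add, map_add, map_add, constantCoeff_X, constantCoeff_C, pderiv_C,
        pderiv_X_self, map_zero, map_one, ptq_above]
      ring
    rw [Finset.sum_congr rfl fun t _ => h6 t, Finset.sum_sub_distrib, Finset.sum_sub_distrib,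
      Finset.sum_const, Finset.card_univ, Fintype.card_fin, nsmul_eq_mul, map_neg, map_mul,
      constantCoeff_C, cc_germ] at h4
    have h7 := congrArg (eval (ptq i q)) (euler_hom (θ i) m (hθ i))
    rw [map_sum, Fin.sum_univ_succAbove _ i, map_mul, map_mul, eval_X, ptq_same, one_mul,
      eval_C] at h7
    have h8 : ∀ t, eval (ptq i q) (X (i.succAbove t) * pderiv (i.succAbove t) (θ i)) =
        ptq i q (i.succAbove t) * eval (ptq i q) (pderiv (i.succAbove t) (θ i)) := by
      intro t
      rw [map_mul, eval_X]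
    rw [Finset.sum_congr rfl fun t _ => h8 t] at h7
    rw [map_sum, Fin.sum_univ_succAbove _ i]
    linear_combination h4 + h7

end Pool.Agent.H940.M
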