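import Pool.Agent.H940.M.Kill
import Pool.Agent.H940.P.SFm

set_option autoImplicit false
set_option linter.unusedSectionVars false
set_option linter.unusedVariables false

/-! # The functional equations of the germs -/

namespace Pool.Agent.H940.M

open MvPolynomial Pool.Agent.W428.MOT Pool.Agent.TH192.MT Pool.Agent.TH192.DT Pool.Agent.Q49.CO
open Pool.Agent.Y229 Pool.Agent.Q57.MC Pool.Agent.Q57.MD
open Pool.Agent.W574.SM (IsFunctionalEq)
open Pool.Agent.W574.LM (IsLocEq)
open Pool.Agent.W574.HS (univ)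
open Pool.Agent.H628R4.TP (IsBFunction IsLocalBFunction weylS)
open Pool.Agent.H940.Z Pool.Agent.H940.G Pool.Agent.H940.R

section

variable {σ J : Type} [Fintype σ] [Fintype J] {c r : ℕ}

/-- **Local functional equations from a transfer.** -/
theorem localBI_of_transf (f : J → MvPolynomial σ ℂ) (h : Fin r → MvPolynomial (Fin c) ℂ)
    (p : σ → ℂ) (hT : Transf f h p) (hne : ∃ k, h k ≠ 0) (H : MvPolynomial σ ℂ) (b : Polynomial ℂ)
    (hb : IsLocEq H f b) (hH : eval p H ≠ 0) : IsLocalBI h b := by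
  classical
  obtain ⟨Ξ, hΞ, hl, hr, hQ⟩ := hT
  obtain ⟨Q, mQ, hQ'⟩ := univ_of_locEq H f b hb
  obtain ⟨K, iK, a, D, hD⟩ := hQ Q mQ
  have hcc : ∀ P : MvPolynomial (J ⊕ σ) ℂ, MvPowerSeries.constantCoeff (Ξ P) =
      eval (Sum.elim 0 p) P := by
    intro P
    have h1 : (MvPowerSeries.constantCoeff (σ := Fin r ⊕ Fin c) (R := ℂ)).comp
        (Ξ : MvPolynomial (J ⊕ σ) ℂ →+* MvPowerSeries (Fin r ⊕ Fin c) ℂ) =
        eval (Sum.elim 0 p) := by
      apply MvPolynomial.ringHom_ext
      · intro a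
        rw [RingHom.comp_apply, eval_C]
        have h2 : (Ξ : MvPolynomial (J ⊕ σ) ℂ →+* MvPowerSeries (Fin r ⊕ Fin c) ℂ) (C a) =
            MvPowerSeries.C a := Ξ.commutes a
        rw [h2, MvPowerSeries.constantCoeff_C]
      · intro x
        rw [RingHom.comp_apply, eval_X]
        rcases x with j | i
        · exact hl j
        · exact hr i
    exact congrArg (fun φ : MvPolynomial (J ⊕ σ) ℂ →+* ℂ => φ P) h1
  obtain ⟨u, hu⟩ : IsUnit (Ξ (rename Sum.inr H)) := by
    rw [MvPowerSeries.isUnit_iff_constantCoeff]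
    refine isUnit_iff_ne_zero.2 ?_
    rw [hcc, eval_rename]
    exact hH
  refine localBI_of_univ h hne b ?_
  set e := Fintype.equivFin K with he
  refine ⟨Fintype.card K, fun _ => 0, fun l => ((u⁻¹ : (MvPowerSeries (Fin r ⊕ Fin c) ℂ)ˣ) :
    MvPowerSeries (Fin r ⊕ Fin c) ℂ) * a (e.symm l), fun l => D (e.symm l), fun n => ?_⟩
  have k1 := congrArg Ξ (hQ' n)
  rw [map_mul, ← hu, C_mul', map_smul, map_pow, hΞ, hD] at k1
  have k2 := congrArg (fun x => ((u⁻¹ : (MvPowerSeries (Fin r ⊕ Fin c) ℂ)ˣ) :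
    MvPowerSeries (Fin r ⊕ Fin c) ℂ) * x) k1
  beta_reduce at k2
  rw [Units.inv_mul_cancel_left, Finset.mul_sum] at k2
  rw [MvPolynomial.coe_pow, ← MvPowerSeries.smul_eq_C_mul, k2, ← e.symm.sum_comp]
  refine Finset.sum_congr rfl fun l _ => ?_
  rw [pow_zero, map_one, one_mul, mul_assoc]

/-- the polynomial form of the local functional equation of one polynomial -/
theorem fe_of_localBI (g : MvPolynomial σ ℂ) (b : Polynomial ℂ)
    (hb : IsLocalBI (fun _ : Fin 1 => g) b) : ∃ (H : MvPolynomial σ ℂ) (P : ℕ →₀ weylS σ),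
      constantCoeff H ≠ 0 ∧ ∀ s : ℕ, H * (C (b.eval (s : ℂ)) * g ^ s) = ap P (s : ℂ) (g ^ (s + 1)) := by
  classical
  obtain ⟨H, hH, hloc⟩ := locEq_of_local _ b hb
  obtain ⟨P, hP⟩ := eq_of_locEq1 H g b hloc
  exact ⟨H, P, hH, hP⟩

end

variable {n : ℕ} (f : MvPolynomial (Fin (n + 1)) ℂ) (d : ℕ) (hf : f.IsHomogeneous d)
include hf

/-- **The local functional equation of the germs.** -/
theorem localBI_chart (i : Fin (n + 1)) (q : Fin n → ℂ) (hne : germAt i q f ≠ 0)
    (b : Polynomial ℂ) (hb : IsBFunction f b) :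
    IsLocalBI (fun _ : Fin 1 => germAt i q f) b := by
  classical
  set p : Fin (n + 1) → ℂ := i.insertNth 1 q with hp
  have hpi : p i = 1 := by rw [hp, Fin.insertNth_apply_same]
  have hpt : ∀ t, p (i.succAbove t) = q t := by
    intro t
    rw [hp, Fin.insertNth_apply_succAbove]
  have hne' : ∃ k : Fin 1, (fun _ : Fin 1 => germAt i q f) k ≠ 0 := ⟨0, hne⟩
  have hT : Transf (fun _ : Fin 1 => f) (fun _ : Fin 1 => germAt i q f) p := by
    refine transfer_chart (fun _ : Fin 1 => f) (fun _ : Fin 1 => germAt i q f) (an i q)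
      (fun t => i.succAbove t) (X i) p ?_ (same_germ f d hf i q) ?_ ?_
    · rw [eval_X, hpi]
      exact one_ne_zero
    · intro t
      have h1 := aeval_an i q t p
      rw [hpt, hpi] at h1
      change aeval p (an i q t) = 0
      rw [h1]
      change q t - q t * 1 = 0
      ring
    · have h1 : (Matrix.of fun u t => eval p (pderiv (i.succAbove u) (an i q t))) =
          (1 : Matrix (Fin n) (Fin n) ℂ) := by
        ext1 u t
        rw [Matrix.of_apply, pderiv_an, Matrix.one_apply]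
        split_ifs
        · rw [map_one]
        · rw [map_zero]
      rw [h1, Matrix.det_one]
      exact one_ne_zero
  refine localBI_of_transf _ _ p hT hne' 1 b ?_ ?_
  · have h1 := locEq1_of_eq f b hb
    obtain ⟨S, P, hS, hP⟩ := h1
    exact ⟨S, P, hS, fun s => by rw [one_mul]; exact hP s⟩
  · rw [map_one]
    exact one_ne_zero

/-- **The local functional equation of the weighted homogeneous polynomial.** -/
theorem localBI_wgt (i : Fin (n + 1)) (q : Fin n → ℂ) (hne : germAt i q f ≠ 0)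
    {g : MvPolynomial (Fin n) ℂ} (hg : g ≠ 0) {w : Fin n → ℕ} {N : ℕ}
    {η : Fin n → MvPowerSeries (Fin n) ℂ} (H : WHG (germAt i q f) g w N η)
    (b : Polynomial ℂ) (hb : IsBFunction f b) : IsLocalBI (fun _ : Fin 1 => g) b := by
  classical
  have hT : Transf (fun _ : Fin 1 => germAt i q f) (fun _ : Fin 1 => g) 0 :=
    transfer_formal (fun _ : Fin 1 => germAt i q f) (fun _ : Fin 1 => g) η id H.cc H.det (by
      rw [Set.range_const, Set.range_const]
      exact H.gen)
  obtain ⟨H', hH', hloc⟩ := locEq_of_local _ b (localBI_chart f d hf i q hne b hb)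
  exact localBI_of_transf _ _ 0 hT ⟨0, hg⟩ H' b hloc (by rw [MvPolynomial.eval_zero]; exact hH')

end Pool.Agent.H940.M
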