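import Pool.Agent.H940.LT.Root

set_option autoImplicit false
set_option linter.unusedSectionVars false
set_option linter.unusedVariables false

/-! # Reduced functional equations -/

namespace Pool.Agent.H940.M

open MvPolynomial
open Pool.Agent.H628R4.TP (weylS)
open Pool.Agent.H940.LT

variable {σ : Type} [Fintype σ] [DecidableEq σ]

/-- the value of an operator which is a polynomial in `s` -/
noncomputable def ap (P : ℕ →₀ weylS σ) (c : ℂ) (g : MvPolynomial σ ℂ) : MvPolynomial σ ℂ :=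
  P.sum fun m Q => (c ^ m) • (Q : Module.End ℂ (MvPolynomial σ ℂ)) g

theorem ap_zero (c : ℂ) (g : MvPolynomial σ ℂ) : ap (0 : ℕ →₀ weylS σ) c g = 0 :=
  Finsupp.sum_zero_index

theorem ap_add (P Q : ℕ →₀ weylS σ) (c : ℂ) (g : MvPolynomial σ ℂ) :
    ap (P + Q) c g = ap P c g + ap Q c g := by
  unfold ap
  exact Finsupp.sum_add_index' (fun m => by simp) (fun m Q Q' => by
    rw [← smul_add]; rfl)

theorem ap_single (m : ℕ) (Q : weylS σ) (c : ℂ) (g : MvPolynomial σ ℂ) :
    ap (Finsupp.single m Q) c g = (c ^ m) • (Q : Module.End ℂ (MvPolynomial σ ℂ)) g := by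
  unfold ap
  exact Finsupp.sum_single_index (by simp)

theorem exists_shift (P : ℕ →₀ weylS σ) : ∃ P' : ℕ →₀ weylS σ, ∀ (c : ℂ) (g : MvPolynomial σ ℂ),
    ap P' c g = c • ap P c g := by
  induction P using Finsupp.induction_linear with
  | zero => exact ⟨0, fun c g => by rw [ap_zero, smul_zero]⟩
  | add P Q hP hQ =>
    obtain ⟨P', h1⟩ := hP
    obtain ⟨Q', h2⟩ := hQ
    exact ⟨P' + Q', fun c g => by rw [ap_add, ap_add, h1, h2, smul_add]⟩
  | single m Q =>
    exact ⟨Finsupp.single (m + 1) Q, fun c g => by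
      rw [ap_single, ap_single, smul_smul, pow_succ, mul_comm]⟩

/-- division by `s + 1` -/
theorem exists_div (P : ℕ →₀ weylS σ) : ∃ (P' : ℕ →₀ weylS σ) (Q : weylS σ),
    ∀ (c : ℂ) (g : MvPolynomial σ ℂ), ap P c g = (c + 1) • ap P' c g +
      (Q : Module.End ℂ (MvPolynomial σ ℂ)) g := by
  induction P using Finsupp.induction_linear with
  | zero =>
    refine ⟨0, 0, fun c g => ?_⟩
    rw [ap_zero, smul_zero, zero_add]
    rfl
  | add P Q hP hQ =>
    obtain ⟨P', R, h1⟩ := hP
    obtain ⟨Q', R', h2⟩ := hQ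
    refine ⟨P' + Q', R + R', fun c g => ?_⟩
    rw [ap_add, ap_add, h1, h2, smul_add]
    have h3 : (((R + R' : weylS σ) : Module.End ℂ (MvPolynomial σ ℂ))) g =
        (R : Module.End ℂ (MvPolynomial σ ℂ)) g + (R' : Module.End ℂ (MvPolynomial σ ℂ)) g := rfl
    rw [h3]
    abel
  | single m Q =>
    induction m with
    | zero =>
      refine ⟨0, Q, fun c g => ?_⟩
      rw [ap_zero, smul_zero, zero_add, ap_single, pow_zero, one_smul]
    | succ m ih =>
      obtain ⟨P', R, h1⟩ := ih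
      obtain ⟨P'', h2⟩ := exists_shift P'
      refine ⟨P'' + Finsupp.single 0 R, -R, fun c g => ?_⟩
      rw [ap_add, h2, ap_single, ap_single, pow_zero, one_smul]
      have h3 := h1 c g
      rw [ap_single] at h3
      rw [pow_succ, mul_comm, ← smul_smul, h3]
      have h4 : (((-R : weylS σ) : Module.End ℂ (MvPolynomial σ ℂ))) g =
          - (R : Module.End ℂ (MvPolynomial σ ℂ)) g := rfl
      rw [h4, smul_add, smul_add, smul_smul, smul_smul, mul_comm c, add_smul c 1
        ((R : Module.End ℂ (MvPolynomial σ ℂ)) g), one_smul]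
      abel

theorem mulLeft_mem (a : MvPolynomial σ ℂ) : LinearMap.mulLeft ℂ a ∈ weylS σ := by
  induction a using MvPolynomial.induction_on with
  | C r =>
    have h1 : LinearMap.mulLeft ℂ (C r : MvPolynomial σ ℂ) =
        algebraMap ℂ (Module.End ℂ (MvPolynomial σ ℂ)) r := by
      refine LinearMap.ext fun g => ?_
      rw [LinearMap.mulLeft_apply, C_mul', Module.algebraMap_end_apply]
    rw [h1]
    exact Subalgebra.algebraMap_mem _ _
  | add p q hp hq =>
    have h1 : LinearMap.mulLeft ℂ (p + q) = LinearMap.mulLeft ℂ p + LinearMap.mulLeft ℂ q := by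
      refine LinearMap.ext fun g => ?_
      rw [LinearMap.mulLeft_apply, add_mul]
      rfl
    rw [h1]
    exact Subalgebra.add_mem _ hp hq
  | mul_X p j hp =>
    have h1 : LinearMap.mulLeft ℂ (p * X j) = LinearMap.mulLeft ℂ p * LinearMap.mulLeft ℂ (X j) := by
      refine LinearMap.ext fun g => ?_
      rw [LinearMap.mulLeft_apply, mul_assoc]
      rfl
    rw [h1]
    exact Subalgebra.mul_mem _ hp (Algebra.subset_adjoin (Or.inl ⟨j, rfl⟩))

/-- the derivatives on the right -/
theorem weyl_dec (Q : Module.End ℂ (MvPolynomial σ ℂ)) (hQ : Q ∈ weylS σ) :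
    ∀ Q' : weylS σ, (∃ (a : MvPolynomial σ ℂ) (R : σ → weylS σ), ∀ g,
      (Q' : Module.End ℂ (MvPolynomial σ ℂ)) g = a * g + ∑ i, (R i : Module.End ℂ
        (MvPolynomial σ ℂ)) (pderiv i g)) →
    ∃ (a : MvPolynomial σ ℂ) (R : σ → weylS σ), ∀ g,
      Q ((Q' : Module.End ℂ (MvPolynomial σ ℂ)) g) = a * g + ∑ i, (R i : Module.End ℂ
        (MvPolynomial σ ℂ)) (pderiv i g) := by
  unfold weylS at hQ
  induction hQ using Algebra.adjoin_induction with
  | mem Q h =>
    rintro Q' ⟨a, R, hR⟩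
    rcases h with ⟨i, rfl⟩ | ⟨i, rfl⟩
    · refine ⟨X i * a, fun j => ⟨_, mulLeft_mem (X i)⟩ * R j, fun g => ?_⟩
      rw [hR, map_add, map_sum, LinearMap.mulLeft_apply, ← mul_assoc]
      rfl
    · have hX : ((pderiv i : Derivation ℂ (MvPolynomial σ ℂ)
        (MvPolynomial σ ℂ)) : MvPolynomial σ ℂ →ₗ[ℂ] MvPolynomial σ ℂ) ∈ weylS σ :=
        Algebra.subset_adjoin (Or.inr ⟨i, rfl⟩)
      refine ⟨pderiv i a, fun j => ⟨_, hX⟩ * R j + if j = i then ⟨_, mulLeft_mem a⟩ else 0,
        fun g => ?_⟩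
      have h1 : ∀ j, ((((⟨_, hX⟩ : weylS σ) * R j + if j = i then ⟨_, mulLeft_mem a⟩ else 0 :
          weylS σ)) : Module.End ℂ (MvPolynomial σ ℂ)) (pderiv j g) =
          pderiv i ((R j : Module.End ℂ (MvPolynomial σ ℂ)) (pderiv j g)) +
            if j = i then a * pderiv j g else 0 := by
        intro j
        split_ifs with hj
        · rfl
        · rw [add_zero, add_zero]
          rfl
      rw [Finset.sum_congr rfl fun j _ => h1 j, Finset.sum_add_distrib, Finset.sum_ite_eq',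
        if_pos (Finset.mem_univ i), hR]
      change pderiv i (a * g + ∑ j, (R j : Module.End ℂ (MvPolynomial σ ℂ)) (pderiv j g)) = _
      rw [map_add, map_sum, pderiv_mul]
      ring
  | algebraMap r =>
    rintro Q' ⟨a, R, hR⟩
    refine ⟨C r * a, fun j => r • R j, fun g => ?_⟩
    rw [hR, Module.algebraMap_end_apply, smul_add, mul_assoc, C_mul', Finset.smul_sum]
    rfl
  | add P Q _ _ hP hQ =>
    intro Q' h
    obtain ⟨a, R, h1⟩ := hP Q' h
    obtain ⟨a', R', h2⟩ := hQ Q' h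
    refine ⟨a + a', fun j => R j + R' j, fun g => ?_⟩
    have h3 : ((P + Q) ((Q' : Module.End ℂ (MvPolynomial σ ℂ)) g)) =
      P ((Q' : Module.End ℂ (MvPolynomial σ ℂ)) g) +
      Q ((Q' : Module.End ℂ (MvPolynomial σ ℂ)) g) := rfl
    rw [h3, h1, h2, add_mul]
    have h4 : ∀ j, (((R j + R' j : weylS σ) : Module.End ℂ (MvPolynomial σ ℂ))) (pderiv j g) =
        (R j : Module.End ℂ (MvPolynomial σ ℂ)) (pderiv j g) +
        (R' j : Module.End ℂ (MvPolynomial σ ℂ)) (pderiv j g) := fun j => rfl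
    rw [Finset.sum_congr rfl fun j _ => h4 j, Finset.sum_add_distrib]
    ring
  | mul P Q hPm hQm hP hQ =>
    intro Q' h
    have h1 := hP ⟨Q * (Q' : Module.End ℂ (MvPolynomial σ ℂ)), Subalgebra.mul_mem _ hQm Q'.2⟩ (hQ Q' h)
    exact h1

/-- the decomposition of an operator -/
theorem weyl_dec' (Q : weylS σ) :
    ∃ (a : MvPolynomial σ ℂ) (R : σ → weylS σ), ∀ g,
      (Q : Module.End ℂ (MvPolynomial σ ℂ)) g = a * g + ∑ i, (R i : Module.End ℂ
        (MvPolynomial σ ℂ)) (pderiv i g) := by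
  obtain ⟨a, R, h⟩ := weyl_dec (Q : Module.End ℂ (MvPolynomial σ ℂ)) Q.2 1 ⟨1, fun _ => 0,
    fun g => by
      have h1 : ∀ j : σ, (((0 : weylS σ)) : Module.End ℂ (MvPolynomial σ ℂ)) (pderiv j g) = 0 :=
        fun j => rfl
      rw [Finset.sum_congr rfl fun j _ => h1 j, Finset.sum_const_zero, add_zero, one_mul]
      rfl⟩
  exact ⟨a, R, h⟩

/-- polynomials in `s` times `f ^ s` -/
def PolyS (f : MvPolynomial σ ℂ) (G : ℕ → MvPolynomial σ ℂ) : Prop :=
  ∃ (k : ℕ) (q : Polynomial (MvPolynomial σ ℂ)), ∀ s : ℕ,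
    f ^ k * G s = q.eval (C (s : ℂ)) * f ^ s

theorem PolyS.add {f : MvPolynomial σ ℂ} {G G' : ℕ → MvPolynomial σ ℂ} (h : PolyS f G)
    (h' : PolyS f G') : PolyS f fun s => G s + G' s := by
  obtain ⟨k, q, h1⟩ := h
  obtain ⟨k', q', h2⟩ := h'
  refine ⟨k + k', Polynomial.C (f ^ k') * q + Polynomial.C (f ^ k) * q', fun s => ?_⟩
  rw [Polynomial.eval_add, Polynomial.eval_mul, Polynomial.eval_mul, Polynomial.eval_C,
    Polynomial.eval_C]
  have h3 := h1 s
  have h4 := h2 s
  rw [pow_add]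
  linear_combination f ^ k' * h3 + f ^ k * h4

theorem PolyS.zero {f : MvPolynomial σ ℂ} : PolyS f fun _ => 0 :=
  ⟨0, 0, fun s => by simp⟩

theorem PolyS.sum {f : MvPolynomial σ ℂ} {ι : Type} (t : Finset ι)
    {G : ι → ℕ → MvPolynomial σ ℂ} (h : ∀ i ∈ t, PolyS f (G i)) :
    PolyS f fun s => ∑ i ∈ t, G i s := by
  classical
  induction t using Finset.induction_on with
  | empty =>
    simp only [Finset.sum_empty]
    exact PolyS.zero
  | insert a t ha ih =>
    simp only [Finset.sum_insert ha]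
    exact (h a (Finset.mem_insert_self _ _)).add
      (ih fun i hi => h i (Finset.mem_insert_of_mem hi))

theorem PolyS.smul {f : MvPolynomial σ ℂ} {G : ℕ → MvPolynomial σ ℂ} (h : PolyS f G) (m : ℕ) :
    PolyS f fun s => ((s : ℂ) ^ m) • G s := by
  obtain ⟨k, q, h1⟩ := h
  refine ⟨k, Polynomial.X ^ m * q, fun s => ?_⟩
  beta_reduce
  rw [Polynomial.eval_mul, Polynomial.eval_pow, Polynomial.eval_X, smul_eq_C_mul, map_pow]
  linear_combination (C (s : ℂ)) ^ m * h1 s

theorem polyS_op (f u : MvPolynomial σ ℂ) (Q : weylS σ) :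
    PolyS f fun s => (Q : Module.End ℂ (MvPolynomial σ ℂ)) (u * f ^ s) := by
  obtain ⟨Ψ, hΨ⟩ := exists_Lam (Q : Module.End ℂ (MvPolynomial σ ℂ)) Q.2 (C 1)
  obtain ⟨c, -, hc⟩ := sym_Lam f (C u * Ψ).totalDegree (C u * Ψ) le_rfl
  refine ⟨(C u * Ψ).totalDegree, ∑ j ∈ Finset.range ((C u * Ψ).totalDegree + 1),
    Polynomial.monomial j (c j), fun s => ?_⟩
  have h1 : (Q : Module.End ℂ (MvPolynomial σ ℂ)) (u * f ^ s) = Lam (C u * Ψ) (f ^ s) := by
    rw [Lam_C_mul, ← hΨ, ← monomial_zero', Lam_monomial, D_zero, one_mul]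
  simp only
  rw [h1, hc, Polynomial.eval_finsetSum]
  congr 1
  refine Finset.sum_congr rfl fun j _ => ?_
  rw [Polynomial.eval_monomial, map_pow, mul_comm]

theorem polyS_ap (f u : MvPolynomial σ ℂ) (P : ℕ →₀ weylS σ) :
    PolyS f fun s => ap P (s : ℂ) (u * f ^ s) := by
  induction P using Finsupp.induction_linear with
  | zero =>
    simp only [ap_zero]
    exact PolyS.zero
  | add P Q hP hQ =>
    simp only [ap_add]
    exact hP.add hQ
  | single m Q =>
    simp only [ap_single]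
    exact (polyS_op f u Q).smul m

/-- **The reduced functional equation.** -/
theorem exists_red (f : MvPolynomial σ ℂ) (hf : f ≠ 0) (hf0 : constantCoeff f = 0)
    (H : MvPolynomial σ ℂ) (hH : constantCoeff H ≠ 0) (b : Polynomial ℂ)
    (P : ℕ →₀ weylS σ) (hP : ∀ s : ℕ, H * (C (b.eval (s : ℂ)) * f ^ s) =
      ap P (s : ℂ) (f ^ (s + 1))) :
    ∃ b' : Polynomial ℂ, b = (Polynomial.X + 1) * b' ∧
      ∃ (P' : ℕ →₀ weylS σ) (R : σ → weylS σ), ∀ s : ℕ,
        H * (C (b'.eval (s : ℂ)) * f ^ s) = ap P' (s : ℂ) (f * f ^ s) +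
          ∑ i, (R i : Module.End ℂ (MvPolynomial σ ℂ)) (pderiv i f * f ^ s) := by
  classical
  obtain ⟨P', Q, hdiv⟩ := exists_div P
  obtain ⟨a, R, hR⟩ := weyl_dec' Q
  -- the identity with `s + 1`
  have h1 : ∀ s : ℕ, H * (C (b.eval (s : ℂ)) * f ^ s) =
      ((s : ℂ) + 1) • (ap P' (s : ℂ) (f * f ^ s) +
        ∑ i, (R i : Module.End ℂ (MvPolynomial σ ℂ)) (pderiv i f * f ^ s)) +
          a * f ^ (s + 1) := by
    intro s
    rw [hP, hdiv, hR]
    have h2 : ∀ i, (R i : Module.End ℂ (MvPolynomial σ ℂ)) (pderiv i (f ^ (s + 1))) =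
        ((s : ℂ) + 1) • (R i : Module.End ℂ (MvPolynomial σ ℂ)) (pderiv i f * f ^ s) := by
      intro i
      rw [← map_smul]
      congr 1
      rw [pderiv_pow, Nat.add_sub_cancel, smul_eq_C_mul, map_add, map_one, map_natCast]
      push_cast
      ring
    rw [Finset.sum_congr rfl fun i _ => h2 i, ← Finset.smul_sum, smul_add, pow_succ' f s]
    abel
  obtain ⟨k, q, hq⟩ := (polyS_ap f f P').add (PolyS.sum Finset.univ (fun i _ =>
    polyS_op f (pderiv i f) (R i)))
  -- the polynomial identity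
  have h3 : (Polynomial.C (f ^ k * H) * b.map (C : ℂ →+* MvPolynomial σ ℂ) -
      (Polynomial.X + 1) * q - Polynomial.C (a * f ^ (k + 1)) :
        Polynomial (MvPolynomial σ ℂ)) = 0 := by
    refine Polynomial.eq_zero_of_infinite_isRoot _ ?_
    refine Set.infinite_of_injective_forall_mem (f := fun s : ℕ =>
      (C (s : ℂ) : MvPolynomial σ ℂ)) ?_ ?_
    · intro s t hst
      have := C_injective σ ℂ hst
      exact_mod_cast this
    · intro s
      change Polynomial.eval _ _ = 0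
      rw [Polynomial.eval_sub, Polynomial.eval_sub, Polynomial.eval_mul, Polynomial.eval_mul,
        Polynomial.eval_C, Polynomial.eval_C, Polynomial.eval_add, Polynomial.eval_X,
        Polynomial.eval_one, Polynomial.eval_map, Polynomial.eval₂_at_apply]
      have h4 := h1 s
      have h5 := hq s
      rw [smul_eq_C_mul, map_add, map_one] at h4
      have h6 : (f ^ k * H * C (b.eval (s : ℂ)) - (C (s : ℂ) + 1) * q.eval (C (s : ℂ)) -
          a * f ^ (k + 1)) * f ^ s = 0 := by
        linear_combination f ^ k * h4 + (C (s : ℂ) + 1) * h5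
      exact (mul_eq_zero.1 h6).resolve_right (pow_ne_zero _ hf)
  have h4 : H * C (b.eval (-1)) = a * f := by
    have h5 := congrArg (Polynomial.eval (C (-1 : ℂ) : MvPolynomial σ ℂ)) h3
    rw [Polynomial.eval_sub, Polynomial.eval_sub, Polynomial.eval_mul, Polynomial.eval_mul,
        Polynomial.eval_C, Polynomial.eval_C, Polynomial.eval_add, Polynomial.eval_X,
        Polynomial.eval_one, Polynomial.eval_map, Polynomial.eval₂_at_apply,
        Polynomial.eval_zero, map_neg, map_one, neg_add_cancel, zero_mul, sub_zero] at h5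
    have h6 : f ^ k * (H * C (b.eval (-1)) - a * f) = 0 := by
      rw [pow_succ] at h5
      linear_combination h5
    exact sub_eq_zero.1 ((mul_eq_zero.1 h6).resolve_left (pow_ne_zero _ hf))
  have h5 : b.eval (-1) = 0 := by
    have h6 := congrArg constantCoeff h4
    rw [map_mul, map_mul, constantCoeff_C, hf0, mul_zero] at h6
    exact (mul_eq_zero.1 h6).resolve_left hH
  have ha : a = 0 := by
    rw [h5, map_zero, mul_zero] at h4
    exact (mul_eq_zero.1 h4.symm).resolve_right hf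
  obtain ⟨b', hb'⟩ : (Polynomial.X + 1 : Polynomial ℂ) ∣ b := by
    have h6 := Polynomial.dvd_iff_isRoot.2 (show b.IsRoot (-1) from h5)
    rwa [map_neg, map_one, sub_neg_eq_add] at h6
  refine ⟨b', hb', P', R, fun s => ?_⟩
  have h6 := h1 s
  rw [ha, zero_mul, add_zero, hb', Polynomial.eval_mul, Polynomial.eval_add, Polynomial.eval_X,
    Polynomial.eval_one, smul_eq_C_mul, map_mul] at h6
  have hs : (C ((s : ℂ) + 1) : MvPolynomial σ ℂ) ≠ 0 := by
    intro h0
    have h7 : (s : ℂ) + 1 = 0 := by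
      have := C_injective σ ℂ (h0.trans (map_zero _).symm)
      exact this
    have h8 : ((s + 1 : ℕ) : ℂ) = 0 := by
      push_cast
      exact h7
    exact Nat.cast_ne_zero.2 (Nat.succ_ne_zero s) h8
  apply mul_left_cancel₀ hs
  linear_combination h6

end Pool.Agent.H940.M
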