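import Pool.Agent.H940.S.Cplx
import Pool.Agent.H940.LT.Reg
import Pool.Agent.H940.R.Roots

set_option autoImplicit false
set_option linter.unusedSectionVars false
set_option linter.unusedVariables false

/-! # The traces of the fields which multiply a weighted homogeneous germ -/

namespace Pool.Agent.H940.M

open MvPolynomial Pool.Agent.H940.R Pool.Agent.H940.S
open Pool.Agent.H940.LT (RegF KOS regF_whi)

variable {n : ℕ}

/-- The fields which kill `h` up to terms of high degree vanish at the origin and have the trace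
zero. -/
def TrV (h : MvPolynomial (Fin n) ℂ) (k : ℕ) : Prop :=
  ∀ S : Fin n → MvPolynomial (Fin n) ℂ, ∑ t, S t * pderiv t h ∈ wI ℂ 1 k →
    (∀ t, constantCoeff (S t) = 0) ∧ ∑ t, constantCoeff (pderiv t (S t)) = 0

theorem cc_of_mem {F : MvPolynomial (Fin n) ℂ} {k : ℕ} (hk : 1 ≤ k) (hF : F ∈ wI ℂ 1 k) :
    constantCoeff F = 0 := by
  rw [constantCoeff_eq]
  exact hF 0 (by rw [map_zero]; omega)

theorem cc_pd_of_mem {F : MvPolynomial (Fin n) ℂ} {k : ℕ} (hk : 2 ≤ k) (hF : F ∈ wI ℂ 1 k)
    (t : Fin n) : constantCoeff (pderiv t F) = 0 := by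
  obtain ⟨k, rfl⟩ : ∃ j, k = j + 1 := ⟨k - 1, by omega⟩
  exact cc_of_mem (by omega) (pderiv_mem hF t)

theorem trv_base (g : MvPolynomial (Fin n) ℂ) (hK : KOS fun t => pderiv t g)
    (h1 : ∀ t, constantCoeff (pderiv t g) = 0)
    (hc : ∀ i, ∃ m : ℕ, (X i : MvPolynomial (Fin n) ℂ) ^ m ∈ Jac g) :
    ∃ M : ℕ, ∀ k, M ≤ k → TrV g k := by
  classical
  obtain ⟨M, -, hM⟩ := exists_wI (J := wI ℂ 1 2 * Jac g) (fun i => by
    obtain ⟨m, hm⟩ := hc i
    refine ⟨2 + m, ?_⟩
    rw [pow_add]
    refine Ideal.mul_mem_mul ?_ hm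
    intro d hd
    rw [weight_one] at hd
    rw [coeff_X_pow, if_neg]
    rintro rfl
    have h2 : ∑ j, (Finsupp.single i 2 : Fin n →₀ ℕ) j = 2 := by
      rw [← Finsupp.degree_eq_sum, Finsupp.degree_single]
    omega)
  refine ⟨M, fun k hk S hS => ?_⟩
  have hle : (wI ℂ 1 k : Ideal (MvPolynomial (Fin n) ℂ)) ≤ wI ℂ 1 M := by
    intro F hF d hd
    exact hF d (lt_of_lt_of_le hd hk)
  have h2 := hM (hle hS)
  have h3 : ∑ t, S t * pderiv t g ∈ (wI ℂ 1 2 : Ideal (MvPolynomial (Fin n) ℂ)) •
      Submodule.span (MvPolynomial (Fin n) ℂ) (Set.range fun t => pderiv t g) := by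
    rw [smul_eq_mul]
    exact h2
  rw [Submodule.mem_ideal_smul_span_iff_exists_sum] at h3
  obtain ⟨e, he, hsum⟩ := h3
  rw [Finsupp.sum_fintype _ _ (fun i => by rw [zero_smul])] at hsum
  obtain ⟨a, -, ha2, ha3⟩ := hK (fun t => S t - e t) (by
    have h4 : ∑ t, (S t - e t) * pderiv t g = ∑ t, S t * pderiv t g -
        ∑ t, e t * pderiv t g := by
      rw [← Finset.sum_sub_distrib]
      exact Finset.sum_congr rfl fun t _ => by rw [sub_mul]
    rw [h4, ← hsum, sub_eq_zero]
    exact Finset.sum_congr rfl fun t _ => rfl)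
  have hSt : ∀ t, S t = e t + ∑ j, a t j * pderiv j g := by
    intro t
    rw [← ha3 t]
    ring
  refine ⟨fun t => ?_, ?_⟩
  · rw [hSt, map_add, cc_of_mem (by norm_num) (he t), zero_add, map_sum]
    exact Finset.sum_eq_zero fun j _ => by rw [map_mul, h1, mul_zero]
  · have h5 : ∀ t, constantCoeff (pderiv t (S t)) =
        ∑ j, constantCoeff (a t j) * constantCoeff (pderiv t (pderiv j g)) := by
      intro t
      rw [hSt, map_add, map_add, cc_pd_of_mem le_rfl (he t), zero_add, map_sum, map_sum]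
      refine Finset.sum_congr rfl fun j _ => ?_
      rw [pderiv_mul, map_add, map_mul, map_mul, h1, mul_zero, zero_add]
    rw [Finset.sum_congr rfl fun t _ => h5 t]
    set Q := ∑ t, ∑ j, constantCoeff (a t j) * constantCoeff (pderiv t (pderiv j g)) with hQ
    have h6 : Q = -Q := by
      conv_lhs => rw [hQ, Finset.sum_comm]
      rw [hQ, ← Finset.sum_neg_distrib]
      refine Finset.sum_congr rfl fun j _ => ?_
      rw [← Finset.sum_neg_distrib]
      refine Finset.sum_congr rfl fun t _ => ?_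
      rw [ha2 t j, map_neg, Pool.Agent.H940.LT.pderiv_comm' t j]
      ring
    have h7 : (2 : ℂ) * Q = 0 := by linear_combination h6
    exact (mul_eq_zero.1 h7).resolve_left two_ne_zero

theorem trv_coord {g : MvPolynomial (Fin n) ℂ} {k : ℕ} (hk : 2 ≤ k)
    (b : Fin n → MvPolynomial (Fin n) ℂ) (hb : ∀ t, constantCoeff (b t) = 0)
    (hdet : (jk b).det ≠ 0) (H : TrV g k) : TrV (aeval b g) k := by
  classical
  obtain ⟨c, hc, -, hcb, hbc⟩ := exists_inv2 b hb hdet k hk
  have hb1 : ∀ t, b t ∈ wI ℂ 1 1 := fun t => mem_one_iff.2 (hb t)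
  have hc1 : ∀ t, c t ∈ wI ℂ 1 1 := fun t => mem_one_iff.2 (hc t)
  intro S hS
  set U : Fin n → MvPolynomial (Fin n) ℂ := fun s => ∑ t, S t * pderiv t (b s) with hU
  have h1 : ∑ t, S t * pderiv t (aeval b g) = ∑ s, U s * aeval b (pderiv s g) := by
    have h2 : ∀ t, S t * pderiv t (aeval b g) =
        ∑ s, S t * pderiv t (b s) * aeval b (pderiv s g) := by
      intro t
      rw [pderiv_aeval, Finset.mul_sum]
      exact Finset.sum_congr rfl fun s _ => by ring
    rw [Finset.sum_congr rfl fun t _ => h2 t, Finset.sum_comm]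
    exact Finset.sum_congr rfl fun s _ => by rw [hU, Finset.sum_mul]
  rw [h1] at hS
  have h2 := aeval_mem hS c hc1
  rw [map_sum] at h2
  have h3 : ∑ s, aeval c (U s) * pderiv s g ∈ wI ℂ 1 k := by
    have h4 : ∑ s, aeval c (U s) * pderiv s g = ∑ s, aeval c (U s * aeval b (pderiv s g)) -
        ∑ s, aeval c (U s) * (aeval c (aeval b (pderiv s g)) - pderiv s g) := by
      rw [← Finset.sum_sub_distrib]
      exact Finset.sum_congr rfl fun s _ => by rw [map_mul]; ring
    rw [h4]
    refine Ideal.sub_mem _ h2 (Ideal.sum_mem _ fun s _ => Ideal.mul_mem_left _ _ ?_)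
    rw [aeval_aeval]
    exact aeval_id hcb _
  obtain ⟨h5, h6⟩ := H _ h3
  have h7 : ∀ s, ∑ t, constantCoeff (pderiv t (b s)) * constantCoeff (S t) = 0 := by
    intro s
    have h8 := h5 s
    rw [cc_aeval c hc, hU, map_sum] at h8
    rw [← h8]
    exact Finset.sum_congr rfl fun t _ => by rw [map_mul, mul_comm]
  have hS0 : ∀ t, constantCoeff (S t) = 0 := by
    have h8 := Matrix.eq_zero_of_mulVec_eq_zero hdet (v := fun t => constantCoeff (S t)) (by
      funext s
      exact h7 s)
    exact fun t => congrFun h8 t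
  refine ⟨hS0, ?_⟩
  have h9 : ∀ s, constantCoeff (pderiv s (aeval c (U s))) =
      ∑ r, ∑ t, constantCoeff (pderiv r (S t)) *
        (constantCoeff (pderiv s (c r)) * constantCoeff (pderiv t (b s))) := by
    intro s
    rw [cc_pd_aeval c hc]
    refine Finset.sum_congr rfl fun r _ => ?_
    rw [hU, map_sum, map_sum, Finset.sum_mul]
    refine Finset.sum_congr rfl fun t _ => ?_
    rw [pderiv_mul, map_add, map_mul, map_mul, hS0, zero_mul, add_zero]
    ring
  rw [Finset.sum_congr rfl fun s _ => h9 s, Finset.sum_comm] at h6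
  have h10 : ∀ r t, ∑ s, constantCoeff (pderiv s (c r)) * constantCoeff (pderiv t (b s)) =
      if r = t then 1 else 0 := by
    intro r t
    rw [← cc_pd_aeval b hb (c r) t]
    have h11 := cc_pd_of_mem hk (hbc r) t
    rw [map_sub, map_sub, sub_eq_zero] at h11
    rw [h11]
    split_ifs with h
    · subst h
      rw [pderiv_X_self, map_one]
    · rw [pderiv_X_of_ne h, map_zero]
  have h11 : ∀ r, ∑ s, ∑ t, constantCoeff (pderiv r (S t)) *
        (constantCoeff (pderiv s (c r)) * constantCoeff (pderiv t (b s))) =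
        constantCoeff (pderiv r (S r)) := by
    intro r
    rw [Finset.sum_comm]
    have h12 : ∀ t, ∑ s, constantCoeff (pderiv r (S t)) *
        (constantCoeff (pderiv s (c r)) * constantCoeff (pderiv t (b s))) =
        if r = t then constantCoeff (pderiv r (S t)) else 0 := by
      intro t
      rw [← Finset.mul_sum, h10]
      split_ifs
      · rw [mul_one]
      · rw [mul_zero]
    rw [Finset.sum_congr rfl fun t _ => h12 t, Finset.sum_ite_eq, if_pos (Finset.mem_univ r)]
  rwa [Finset.sum_congr rfl fun r _ => h11 r] at h6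

theorem trv_unit {h : MvPolynomial (Fin n) ℂ} {k : ℕ} {τ : ℂ} (hE : Eul h k τ)
    (H : TrV h k) (v : MvPolynomial (Fin n) ℂ) (hv : constantCoeff v ≠ 0) : TrV (v * h) k := by
  classical
  obtain ⟨u, D, hu, hD, hr, htr⟩ := hE
  obtain ⟨u', hu', -⟩ := exists_inv u (by rw [hu]; exact one_ne_zero) k
  intro S hS
  have h1 : ∑ t, S t * pderiv t (v * h) = vf S v * h + v * vf S h := vf_mul S v h
  rw [h1] at hS
  have h2 : ∑ t, (v * S t + u' * vf S v * D t) * pderiv t h ∈ wI ℂ 1 k := by
    have h3 : ∑ t, (v * S t + u' * vf S v * D t) * pderiv t h =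
        v * vf S h + u' * vf S v * vf D h := by
      rw [vf_apply S h, vf_apply D h, Finset.mul_sum, Finset.mul_sum, ← Finset.sum_add_distrib]
      exact Finset.sum_congr rfl fun t _ => by ring
    have h4 : v * vf S h + u' * vf S v * vf D h = (vf S v * h + v * vf S h) +
        ((u * u' - 1) * (vf S v * h) - u' * vf S v * (u * h - vf D h)) := by ring
    rw [h3, h4]
    exact Ideal.add_mem _ hS (Ideal.sub_mem _ (Ideal.mul_mem_right _ _ hu')
      (Ideal.mul_mem_left _ _ hr))
  obtain ⟨h5, h6⟩ := H _ h2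
  have hS0 : ∀ t, constantCoeff (S t) = 0 := by
    intro t
    have h7 := h5 t
    rw [map_add, map_mul, map_mul, hD, mul_zero, add_zero] at h7
    exact (mul_eq_zero.1 h7).resolve_left hv
  refine ⟨hS0, ?_⟩
  have hq : constantCoeff (u' * vf S v) = 0 := by rw [map_mul, vf_cc hS0, mul_zero]
  have h7 : ∀ t, constantCoeff (pderiv t (v * S t + u' * vf S v * D t)) =
      constantCoeff v * constantCoeff (pderiv t (S t)) := by
    intro t
    generalize u' * vf S v = q at hq
    rw [map_add, map_add, pderiv_mul, pderiv_mul, map_add, map_add, map_mul, map_mul, map_mul,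
      map_mul, hS0, hD, hq]
    ring
  rw [Finset.sum_congr rfl fun t _ => h7 t, ← Finset.mul_sum] at h6
  exact (mul_eq_zero.1 h6).resolve_left hv

theorem trv_cong {h h1 : MvPolynomial (Fin n) ℂ} {k : ℕ} (hh : h - h1 ∈ wI ℂ 1 (k + 1))
    (H : TrV h1 k) : TrV h k := by
  intro S hS
  refine H S ?_
  have h2 : ∑ t, S t * pderiv t h1 = ∑ t, S t * pderiv t h - ∑ t, S t * pderiv t (h - h1) := by
    rw [← Finset.sum_sub_distrib]
    exact Finset.sum_congr rfl fun t _ => by rw [map_sub]; ring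
  rw [h2]
  exact Ideal.sub_mem _ hS (Ideal.sum_mem _ fun t _ => Ideal.mul_mem_left _ _ (pderiv_mem hh t))

section

variable {h g : MvPolynomial (Fin n) ℂ} {w : Fin n → ℕ} {N : ℕ}
  {η : Fin n → MvPowerSeries (Fin n) ℂ} (H : WHK h g w N η) (hn : 0 < n)
  (h0 : constantCoeff h = 0) (h1 : ∀ t, constantCoeff (pderiv t h) = 0)
include H hn h0 h1

theorem whk_whi : Pool.Agent.H940.Z.WHI g w N := by
  have h2 := whk_map (RingHom.id ℂ) H
  rw [map_id, map_id] at h2
  exact Pool.Agent.H940.G.whi h2 h0 h1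

theorem whk_regF : RegF fun t => pderiv t g := by
  have hW := whk_whi H hn h0 h1
  exact regF_whi w g N hW.wpos hW.hom hW.lt fun v hv => (hW.crit v).1 hv

theorem whk_trv : ∃ k, 2 ≤ k ∧ TrV h k := by
  have hW := whk_whi H hn h0 h1
  have hg1 : ∀ t, constantCoeff (pderiv t g) = 0 := by
    have h2 := whk_map (RingHom.id ℂ) H
    rw [map_id, map_id] at h2
    exact Pool.Agent.H940.G.g_crit h2 h0 h1
  obtain ⟨M, hM⟩ := trv_base g (whk_regF H hn h0 h1).kos hg1 H.crit
  refine ⟨M + 2, by omega, ?_⟩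
  obtain ⟨a, v, ha, hdet, hv, hh⟩ := exists_cong H (M + 2 + 1) (by omega)
  have h2 : TrV (aeval a g) (M + 2) := trv_coord (by omega) a ha hdet (hM _ (by omega))
  exact trv_cong hh (trv_unit (eul_coord a ha hdet (eul_g H hn (M + 2))) h2 v hv)

/-- **The trace of a field which multiplies `h`.** -/
theorem trace_eq (B : Fin n → MvPolynomial (Fin n) ℂ) (A : MvPolynomial (Fin n) ℂ)
    (hB : ∑ t, B t * pderiv t h = A * h) : (∀ t, constantCoeff (B t) = 0) ∧
      ∑ t, constantCoeff (pderiv t (B t)) = constantCoeff A * (((∑ i, w i : ℕ) : ℂ) / N) := by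
  obtain ⟨k, hk, hT⟩ := whk_trv H hn h0 h1
  obtain ⟨u, D, hu, hD, hr, htr⟩ := whk_eul H hn k hk
  obtain ⟨h2, h3⟩ := hT (fun t => u * B t - A * D t) (by
    have h4 : ∑ t, (u * B t - A * D t) * pderiv t h = A * (u * h - ∑ t, D t * pderiv t h) := by
      have h5 : ∑ t, (u * B t - A * D t) * pderiv t h = u * ∑ t, B t * pderiv t h -
          A * ∑ t, D t * pderiv t h := by
        rw [Finset.mul_sum, Finset.mul_sum, ← Finset.sum_sub_distrib]
        exact Finset.sum_congr rfl fun t _ => by ring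
      rw [h5, hB]
      ring
    rw [h4]
    exact Ideal.mul_mem_left _ _ hr)
  have hB0 : ∀ t, constantCoeff (B t) = 0 := by
    intro t
    have h4 := h2 t
    rwa [map_sub, map_mul, map_mul, hu, hD, mul_zero, sub_zero, one_mul] at h4
  refine ⟨hB0, ?_⟩
  have h4 : ∀ t, constantCoeff (pderiv t (u * B t - A * D t)) =
      constantCoeff (pderiv t (B t)) - constantCoeff A * constantCoeff (pderiv t (D t)) := by
    intro t
    rw [map_sub, map_sub, pderiv_mul, pderiv_mul, map_add, map_add, map_mul, map_mul, map_mul,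
      map_mul, hB0, hD, hu]
    ring
  rw [Finset.sum_congr rfl fun t _ => h4 t, Finset.sum_sub_distrib, ← Finset.mul_sum, htr,
    sub_eq_zero] at h3
  exact h3

end

end Pool.Agent.H940.M
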